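import Pool.Agent.V5helper72.OB.BoxC
import Pool.Agent.Y989.FR.All

/-!
# Box event: `S_BOX` (helper72, JOB BOX of helper99)
-/

set_option autoImplicit false

namespace Pool.Agent.V5helper72.OB

open Pool.Agent.Y989.FR in
/-- **BOX** -/
theorem t_BOX : Pool.Agent.V5helper99.OB.S_BOX :=
  t_BOXc (ACC.t_ACC a_L3) (a_THK a_JR a_U3) a_U3

end Pool.Agent.V5helper72.OB
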