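import Pool.Agent.V5helper99.OB.Defs
import Pool.Agent.H12R2.Sep.Markov

/-!
# Box event: geometry of boxes, isometries, three arms (helper72, JOB BOX of helper99)
-/

set_option autoImplicit false

namespace Pool.Agent.V5helper72.OB

open H974 H12S Finset H984P H984N
open Pool.Agent.Y989.FR (AE Clu A3v Awy)

theorem okh : Ok (fun _ : Edg => (1 / 2 : ℝ)) := fun _ => ⟨by norm_num, by norm_num⟩

/-! ### The sup distance -/

theorem sd_nonneg (u v : Vtx) : 0 ≤ sd u v := le_max_of_le_left (abs_nonneg _)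

theorem sd_self (u : Vtx) : sd u u = 0 := by simp [sd]

theorem sd_comm (u v : Vtx) : sd u v = sd v u := by
  unfold sd
  rw [abs_sub_comm u.1, abs_sub_comm u.2]

theorem sd_le_iff {u v : Vtx} {k : ℤ} :
    sd u v ≤ k ↔ (-k ≤ u.1 - v.1 ∧ u.1 - v.1 ≤ k) ∧ (-k ≤ u.2 - v.2 ∧ u.2 - v.2 ≤ k) := by
  unfold sd
  rw [max_le_iff, abs_le, abs_le]

theorem sd_tri (u v w : Vtx) : sd u w ≤ sd u v + sd v w := by
  have h1 := (sd_le_iff (u := u) (v := v)).1 le_rfl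
  have h2 := (sd_le_iff (u := v) (v := w)).1 le_rfl
  rw [sd_le_iff]
  omega

theorem sd_eq_iff {u v : Vtx} {k : ℤ} : sd u v = k ↔
    ((-k ≤ u.1 - v.1 ∧ u.1 - v.1 ≤ k) ∧ (-k ≤ u.2 - v.2 ∧ u.2 - v.2 ≤ k)) ∧
      (u.1 - v.1 = k ∨ u.1 - v.1 = -k ∨ u.2 - v.2 = k ∨ u.2 - v.2 = -k) := by
  constructor
  · intro h
    refine ⟨sd_le_iff.1 h.le, ?_⟩
    unfold sd at h
    rcases max_choice |u.1 - v.1| |u.2 - v.2| with h3 | h3
    · rw [h3] at h
      rcases abs_choice (u.1 - v.1) with h4 | h4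
      · rw [h4] at h; exact Or.inl h
      · rw [h4] at h; right; left; linarith
    · rw [h3] at h
      rcases abs_choice (u.2 - v.2) with h4 | h4
      · rw [h4] at h; right; right; left; exact h
      · rw [h4] at h; right; right; right; linarith
  · rintro ⟨h1, h2⟩
    refine le_antisymm (sd_le_iff.2 h1) ?_
    unfold sd
    rcases h2 with h2 | h2 | h2 | h2
    · exact le_max_of_le_left (h2 ▸ le_abs_self _)
    · refine le_max_of_le_left ?_
      have := neg_abs_le (u.1 - v.1)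
      linarith
    · exact le_max_of_le_right (h2 ▸ le_abs_self _)
    · refine le_max_of_le_right ?_
      have := neg_abs_le (u.2 - v.2)
      linarith

theorem mem_bdB {x c : Vtx} {n : ℕ} : x ∈ bdB c n ↔ sd x c = n := by
  rw [sd_eq_iff]
  have key : ∀ a : ℤ, (|a| ≤ (n : ℤ) ↔ (-(n : ℤ) ≤ a ∧ a ≤ n)) ∧
      (|a| = (n : ℤ) ↔ (a = n ∨ a = -(n : ℤ))) := fun a =>
    ⟨abs_le, abs_eq (Int.natCast_nonneg n)⟩
  unfold bdB
  rw [Set.mem_ofPred_eq, (key _).1, (key _).1, (key _).2, (key _).2]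
  omega

theorem mem_blk {e : Edg} {c : Vtx} {n : ℕ} :
    e ∈ blk c n ↔ sd (src e) c ≤ n ∧ sd (tgt e) c ≤ n := by
  rw [sd_le_iff, sd_le_iff]
  obtain ⟨x, y, _ | _⟩ := e
  · simp only [blk, mem_RE_false, src, tgt]
    simp
    omega
  · simp only [blk, mem_RE_true, src, tgt]
    simp
    omega

theorem blk_sub {c c' : Vtx} {n n' : ℕ} (h : sd c c' + n ≤ n') : blk c n ⊆ blk c' n' := by
  intro e he
  rw [mem_blk] at he ⊢
  have h1 := sd_tri (src e) c c'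
  have h2 := sd_tri (tgt e) c c'
  omega

theorem blk_mono {c : Vtx} {n n' : ℕ} (h : n ≤ n') : blk c n ⊆ blk c n' :=
  blk_sub (by rw [sd_self]; exact_mod_cast by omega)

theorem adj_sd {G : Set Edg} {u v : Vtx} (h : Adj G u v) : sd u v ≤ 1 := by
  obtain ⟨⟨x, y, b⟩, _, h⟩ := h
  obtain ⟨u1, u2⟩ := u
  obtain ⟨v1, v2⟩ := v
  rw [sd_le_iff]
  cases b
  · simp only [src_mk, tgt_false, Prod.mk.injEq] at h ⊢
    omega
  · simp only [src_mk, tgt_true, Prod.mk.injEq] at h ⊢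
    omega

/-- an edge used by a step -/
theorem adj_edge {G : Set Edg} {P : Vtx → Prop} {u v : Vtx} (h : Adj G u v)
    (hG : ∀ e ∈ G, P (src e) ∧ P (tgt e)) : P u ∧ P v := by
  obtain ⟨e, he, h1 | h1⟩ := h
  · exact ⟨h1.1 ▸ (hG e he).1, h1.2 ▸ (hG e he).2⟩
  · exact ⟨h1.2 ▸ (hG e he).2, h1.1 ▸ (hG e he).1⟩

/-- a step between two vertices of a box is in the box -/
theorem adj_blk {G : Set Edg} {c u v : Vtx} {n : ℕ} (h : Adj G u v) (hu : sd u c ≤ n)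
    (hv : sd v c ≤ n) : Adj (G ∩ ↑(blk c n)) u v := by
  obtain ⟨e, he, h1⟩ := h
  refine ⟨e, ⟨he, Finset.mem_coe.2 (mem_blk.2 ?_)⟩, h1⟩
  rcases h1 with ⟨h2, h3⟩ | ⟨h2, h3⟩
  · rw [h2, h3]; exact ⟨hu, hv⟩
  · rw [h2, h3]; exact ⟨hv, hu⟩

/-- first exit of a box -/
theorem firstX {G : Set Edg} {c u w : Vtx} {k : ℕ} (hu : sd u c ≤ k) (h : Reach G u w) :
    (sd w c ≤ k ∧ Reach (G ∩ ↑(blk c k)) u w) ∨
      ∃ y, sd y c = k ∧ Reach (G ∩ ↑(blk c k)) u y := by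
  induction h with
  | refl => exact Or.inl ⟨hu, Reach.refl _ _⟩
  | @tail w w' _ hs ih =>
    rcases ih with ⟨h1, h2⟩ | ih
    · by_cases hw' : sd w' c ≤ k
      · exact Or.inl ⟨hw', h2.trans (adj_blk hs h1 hw').reach⟩
      · right
        refine ⟨w, ?_, h2⟩
        have h3 := sd_tri w' w c
        have h4 := adj_sd hs.symm
        omega
    · exact Or.inr ih

/-- first exit of a box by a path which reaches its boundary or its exterior -/
theorem firstX' {G : Set Edg} {c u w : Vtx} {k : ℕ} (hu : sd u c ≤ k) (hw : (k : ℤ) ≤ sd w c)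
    (h : Reach G u w) : ∃ y, sd y c = k ∧ Reach (G ∩ ↑(blk c k)) u y := by
  rcases firstX hu h with ⟨h1, h2⟩ | h1
  · exact ⟨w, le_antisymm h1 hw, h2⟩
  · exact h1

/-- last exit of a box -/
theorem lastX {G : Set Edg} {c x w : Vtx} {d : ℕ} (hx : sd x c ≤ d) (h : Reach G x w) :
    sd w c ≤ d ∨ ∃ u, sd u c = d ∧ Reach G x u ∧ Reach (G \ ↑(blk c d)) u w := by
  induction h with
  | refl => exact Or.inl hx
  | @tail w w' hw hs ih =>
    by_cases hw' : sd w' c ≤ d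
    · exact Or.inl hw'
    right
    have hne : Adj (G \ ↑(blk c d)) w w' := by
      obtain ⟨e, he, hc⟩ := hs
      refine ⟨e, ⟨he, fun hm => hw' ?_⟩, hc⟩
      have h2 := mem_blk.1 (Finset.mem_coe.1 hm)
      rcases hc with ⟨h3, h4⟩ | ⟨h3, h4⟩
      · rw [← h4]; exact h2.2
      · rw [← h3]; exact h2.1
    by_cases hwB : sd w c ≤ d
    · refine ⟨w, ?_, hw, hne.reach⟩
      have h3 := sd_tri w' w c
      have h4 := adj_sd hs.symm
      omega
    · rcases ih with ih | ⟨u, hu, h1, h2⟩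
      · exact absurd ih hwB
      · exact ⟨u, hu, h1, h2.trans hne.reach⟩

/-- crossing of an annulus -/
theorem annX {G : Set Edg} {c x w : Vtx} {d k : ℕ} (hdk : d ≤ k) (hx : sd x c ≤ d)
    (hw : (k : ℤ) < sd w c) (h : Reach G x w) :
    ∃ u, sd u c = d ∧ Reach G x u ∧ ∃ y, sd y c = k ∧ Reach (G ∩ AE c d k) u y := by
  rcases lastX hx h with h1 | ⟨u, hu, h1, h2⟩
  · exfalso
    have : (d : ℤ) ≤ k := by exact_mod_cast hdk
    omega
  · have hdk' : (d : ℤ) ≤ k := by exact_mod_cast hdk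
    rcases firstX (c := c) (k := k) (by omega) h2 with h3 | ⟨y, hy, h3⟩
    · omega
    · refine ⟨u, hu, h1, y, hy, h3.mono ?_⟩
      rintro e ⟨⟨h4, h5⟩, h6⟩
      refine ⟨h4, ?_⟩
      show e ∈ (↑(blk c k \ blk c d) : Set Edg)
      rw [Finset.coe_sdiff]
      exact ⟨h6, h5⟩

/-! ### Clusters of boxes -/

/-- the cluster of `v` in the box of radius `m` around `c` -/
def KC (c : Vtx) (m : ℕ) (v : Vtx) (F : Set Edg) : Set Vtx := {x | Reach (F ∩ ↑(blk c m)) v x}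

theorem KC_sub {c c' v : Vtx} {m m' : ℕ} {F : Set Edg} (h : blk c m ⊆ blk c' m') :
    KC c m v F ⊆ KC c' m' v F := fun _ hx =>
  Reach.mono (Set.inter_subset_inter_right _ (Finset.coe_subset.2 h)) hx

theorem KC_local {c v : Vtx} {m : ℕ} {S : Finset Edg} (hS : blk c m ⊆ S) (F : Finset Edg) :
    KC c m v (↑(F ∩ S) : Set Edg) = KC c m v (↑F : Set Edg) := by
  unfold KC
  have h1 : (↑(F ∩ S) : Set Edg) ∩ ↑(blk c m) = (↑F : Set Edg) ∩ ↑(blk c m) := by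
    rw [Finset.coe_inter, Set.inter_assoc, Set.inter_eq_right.2 (Finset.coe_subset.2 hS)]
  rw [h1]

/-- Three arms. -/
theorem mkA3 {F : Set Edg} {w c : Vtx} {m d j : ℕ} (hd : 2 ≤ d) (hdj : d ≤ j)
    (hb : blk w j ⊆ blk c m) {y : Vtx} (hy : (j : ℤ) < sd y w) (hyK : y ∈ KC c m w F)
    {G : Set Edg} {p q : Vtx} (hp : sd p w ≤ 2) (hq : (j : ℤ) < sd q w) (hpq : Reach G p q)
    (hG : ∀ e ∈ G, src e ∉ KC c m w F ∧ tgt e ∉ KC c m w F) : A3v w d j F := by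
  have hd' : (2 : ℤ) ≤ d := by exact_mod_cast hd
  obtain ⟨u, hu, hu1, yj, hyj, hr⟩ := annX (c := w) hdj (by rw [sd_self]; omega) hy hyK
  obtain ⟨p', hp', -, q', hq', hr'⟩ := annX (c := w) hdj (by omega) hq hpq
  have hsub : ∀ t, t ∈ Clu w d j F u → t ∈ KC c m w F := by
    intro t ht
    refine Reach.trans hu1 (Reach.mono ?_ ht)
    rintro e ⟨h1, h2⟩
    refine ⟨h1, Finset.mem_coe.2 (hb ?_)⟩
    have h3 : e ∈ blk w j \ blk w d := Finset.mem_coe.1 h2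
    exact (Finset.mem_sdiff.1 h3).1
  refine ⟨u, mem_bdB.2 hu, ⟨yj, mem_bdB.2 hyj, hr.mono ?_⟩, p', mem_bdB.2 hp', q', mem_bdB.2 hq',
    hr'.mono ?_⟩
  · rintro e ⟨⟨h1, -⟩, h2⟩
    exact ⟨h1, h2⟩
  · rintro e ⟨h1, h2⟩
    exact ⟨h2, fun h => (hG e h1).1 (hsub _ h), fun h => (hG e h1).2 (hsub _ h)⟩

theorem A3v_local {c : Vtx} {d k : ℕ} {T : Finset Edg} (hT : blk c k \ blk c d ⊆ T)
    (F : Finset Edg) : A3v c d k (↑F : Set Edg) ↔ A3v c d k (↑(F ∩ T) : Set Edg) := by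
  have h : (↑F : Set Edg) ∩ AE c d k = (↑(F ∩ T) : Set Edg) ∩ AE c d k := by
    unfold AE
    rw [Finset.coe_inter, Set.inter_assoc]
    congr 1
    symm
    exact Set.inter_eq_right.2 (Finset.coe_subset.2 hT)
  have h1 : ∀ u, Clu c d k (↑F : Set Edg) u = Clu c d k (↑(F ∩ T) : Set Edg) u := by
    intro u
    unfold Clu
    rw [h]
  unfold A3v
  simp only [h1]

/-! ### Isometries -/

/-- Symmetries of the square lattice which preserve the sup distance. -/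
structure Iso (g : LSym) : Prop where
  dist : ∀ a b : Vtx, sd (g.ψ a) (g.ψ b) = sd a b

theorem Iso.blk {g : LSym} (h : Iso g) {e : Edg} {c : Vtx} {n : ℕ} :
    g.φ e ∈ blk (g.ψ c) n ↔ e ∈ blk c n := by
  rw [mem_blk, mem_blk]
  rcases g.compat e with ⟨h1, h2⟩ | ⟨h1, h2⟩
  · rw [h1, h2, h.dist, h.dist]
  · rw [h1, h2, h.dist, h.dist, and_comm]

theorem Iso.mp_blk {g : LSym} (h : Iso g) (c : Vtx) (n : ℕ) :
    g.mp (H12S.blk c n) = H12S.blk (g.ψ c) n := by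
  ext e
  rw [LSym.mem_mp]
  have := h.blk (e := g.φ.symm e) (c := c) (n := n)
  rw [Equiv.apply_symm_apply] at this
  exact this.symm

theorem Iso.KC {g : LSym} (h : Iso g) {c v x : Vtx} {m : ℕ} {F : Set Edg} :
    g.ψ x ∈ KC (g.ψ c) m (g.ψ v) (g.φ '' F) ↔ x ∈ KC c m v F := by
  show Reach (g.φ '' F ∩ ↑(H12S.blk (g.ψ c) m)) (g.ψ v) (g.ψ x) ↔ _
  rw [← h.mp_blk, LSym.coe_mp, ← Set.image_inter g.φ.injective, LSym.reach_iff]
  rfl

/-- the edges which keep away from the cluster of `w` -/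
def TE' (m M B k : ℕ) (w : Vtx) (F : Set Edg) : Set Edg :=
  {e | (∀ c ∈ KC w m w F, Awy M B k w c (src e)) ∧ ∀ c ∈ KC w m w F, Awy M B k w c (tgt e)}

theorem Iso.Awy {g : LSym} (h : Iso g) {M B k : ℕ} {w c x : Vtx} :
    Awy M B k (g.ψ w) (g.ψ c) (g.ψ x) ↔ Awy M B k w c x := by
  unfold Pool.Agent.Y989.FR.Awy
  rw [h.dist, h.dist]

theorem Iso.TE' {g : LSym} (h : Iso g) {m M B k : ℕ} {w : Vtx} {F : Set Edg} {e : Edg}
    (he : e ∈ TE' m M B k w F) : g.φ e ∈ TE' m M B k (g.ψ w) (g.φ '' F) := by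
  have key : ∀ x, (∀ c ∈ OB.KC w m w F, Pool.Agent.Y989.FR.Awy M B k w c x) →
      ∀ c ∈ OB.KC (g.ψ w) m (g.ψ w) (g.φ '' F),
        Pool.Agent.Y989.FR.Awy M B k (g.ψ w) c (g.ψ x) := by
    intro x hx c hc
    obtain ⟨c', rfl⟩ := g.ψ.surjective c
    exact h.Awy.2 (hx c' (h.KC.1 hc))
  rcases g.compat e with ⟨c1, c2⟩ | ⟨c1, c2⟩
  · refine ⟨?_, ?_⟩
    · rw [c1]; exact key _ he.1
    · rw [c2]; exact key _ he.2
  · refine ⟨?_, ?_⟩
    · rw [c1]; exact key _ he.2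
    · rw [c2]; exact key _ he.1

theorem TE'_notmem {m M B k : ℕ} {w : Vtx} {F : Set Edg} {e : Edg}
    (he : e ∈ TE' m M B k w F) : src e ∉ KC w m w F ∧ tgt e ∉ KC w m w F := by
  have key : ∀ t, ¬ Awy M B k w t t := by
    intro t h9
    unfold Awy at h9
    rw [sd_self, mul_zero] at h9
    exact absurd h9 (not_lt.2 (pow_nonneg (sd_nonneg _ _) _))
  exact ⟨fun h => key _ (he.1 _ h), fun h => key _ (he.2 _ h)⟩

end Pool.Agent.V5helper72.OB
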