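import Pool.Agent.V5helper99.OB.Stm

/-!
# Box event with nearest-neighbour accessibility: definitions (helper72)

As `GoodC`, `Bev`, `S_BOX` of `Pool/Agent/V5helper99/OB/Defs.lean`; in addition near every vertex of `V`
there is a vertex `w1` of the cluster with a lattice neighbour `p` outside of the cluster, and a lattice
path (of arbitrary edges) which avoids the cluster joins `p` to the mouth.
-/

set_option autoImplicit false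

namespace Pool.Agent.V5helper72.OB

open H974 H12S Finset H984P H984N Pool.Agent.V5helper99.OB

/-- The lattice edges which avoid `C` and lie in the allowed region. -/
def AvE (r a : ℕ) (Z : Finset (ℤ × ℤ)) (C : Finset Vtx) : Set Edg :=
  {e | (src e ∉ C ∧ (sd (src e) (0, 0) ≤ (4 * r * a : ℕ) ∨ src e ∈ rgn Z a 1)) ∧
    tgt e ∉ C ∧ (sd (tgt e) (0, 0) ≤ (4 * r * a : ℕ) ∨ tgt e ∈ rgn Z a 1)}

/-- Near `w` there is a vertex of `C` which is accessible from the mouth by a nearest-neighbour path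
which avoids `C`. -/
def NNA (N r a : ℕ) (Z : Finset (ℤ × ℤ)) (yh : ℤ) (C : Finset Vtx) (w : Vtx) : Prop :=
  ∃ w1 ∈ C, sd w1 w ≤ 2 ∧ ∃ p : Vtx, p ∉ C ∧ Adj Set.univ p w1 ∧
    ∃ y ∈ rgn {(-(N : ℤ), yh)} a 1, Reach (AvE r a Z C) p y

/-- The good clusters, with nearest-neighbour accessibility. -/
def GoodA (M B N r : ℕ) (c0 E0 t : ℝ) (a : ℕ) (Z : Finset (ℤ × ℤ)) (yh : ℤ)
    (C : Finset Vtx) : Prop :=
  (∀ x ∈ C, x ∉ rgn Z a 16) ∧ ∃ V ⊆ C, c0 * (a : ℝ) ^ (4 / 3 : ℝ) ≤ (V.card : ℝ) ∧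
    (∑ v ∈ V, ∑ w ∈ V, ((max (sd v w) 1 : ℤ) : ℝ) ^ (-t)) ≤ E0 * (a : ℝ) ^ (8 / 3 - t) ∧
    ∀ w ∈ V, sd w (0, 0) ≤ (r * a : ℕ) ∧ Chn M B N r a Z yh C w ∧ NNA N r a Z yh C w

/-- The box event, with nearest-neighbour accessibility. -/
def BevA (M B N r : ℕ) (c0 E0 t : ℝ) (a : ℕ) (Z : Finset (ℤ × ℤ)) (yh : ℤ) (G : Finset Edg) :
    Prop :=
  ∃ C : Finset Vtx, IsT N a ↑G C ∧ GoodA M B N r c0 E0 t a Z yh C ∧ Esc N r a Z yh C ↑G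

/-- BOXA: as `S_BOX`, with nearest-neighbour accessibility. -/
def S_BOXA : Prop := ∀ t : ℝ, 0 < t → t < 4 / 3 →
  ∃ (M B N r a0 : ℕ) (c0 E0 p : ℝ), 1 ≤ M ∧ 1 ≤ B ∧ 8 ≤ r ∧ 64 * r ≤ N ∧ 1 ≤ a0 ∧ 0 < c0 ∧ 0 < E0 ∧
    0 < p ∧ ∀ a : ℕ, a0 ≤ a → ∃ (Z : Finset (ℤ × ℤ)) (yh : ℤ), Pat N Z yh ∧
      p ≤ PQ (1 / 2) (V5helper99.OB.TP N a) (BevA M B N r c0 E0 t a Z yh)

end Pool.Agent.V5helper72.OB
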