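import Pool.Agent.V5helper72.OB.BoxC
import Pool.Agent.V5helper72.OB.DefA
import Pool.Agent.Y989.FR.All

/-!
# Box event with nearest-neighbour accessibility (helper72)
-/

set_option autoImplicit false

namespace Pool.Agent.V5helper72.OB

open H974 H973 H12S H934E Finset H984P H984N
open Pool.Agent.Y989.FR (AE Clu A3v Awy Acc TkA cl S_ACC S_THK S_U3)
open Pool.Agent.V5helper99.OB

/-! ### Nearest-neighbour accessibility -/

theorem boxconn (w : Vtx) (k : ℕ) : ∀ (n : ℕ) (x : Vtx), |x.1 - w.1| + |x.2 - w.2| ≤ n →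
    sd x w ≤ k → Reach (↑(blk w k)) x w := by
  intro n
  induction n with
  | zero =>
    intro x h1 _
    have h2 : x = w := by
      have h3 := abs_nonneg (x.1 - w.1)
      have h4 := abs_nonneg (x.2 - w.2)
      have h5 : |x.1 - w.1| = 0 := by push_cast at h1; omega
      have h6 : |x.2 - w.2| = 0 := by push_cast at h1; omega
      rw [abs_eq_zero] at h5 h6
      exact Prod.ext (by omega) (by omega)
    rw [h2]
    exact Reach.refl _ _
  | succ n ih =>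
    intro x h1 h2
    have h2' := sd_le_iff.1 h2
    have step : ∀ (x' : Vtx) (e : Edg), ((src e = x ∧ tgt e = x') ∨ (src e = x' ∧ tgt e = x)) →
        |x'.1 - w.1| + |x'.2 - w.2| ≤ n → sd x' w ≤ k → Reach (↑(blk w k)) x w := by
      intro x' e he h3 h4
      refine Relation.ReflTransGen.head ⟨e, ?_, he⟩ (ih x' h3 h4)
      rw [Finset.mem_coe, mem_blk]
      rcases he with ⟨h5, h6⟩ | ⟨h5, h6⟩
      · rw [h5, h6]; exact ⟨h2, h4⟩
      · rw [h5, h6]; exact ⟨h4, h2⟩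
    rcases lt_trichotomy x.1 w.1 with h | h | h
    · refine step (x.1 + 1, x.2) (x.1, x.2, true) (Or.inl ⟨rfl, rfl⟩) ?_ ?_
      · simp only
        have h5 : |x.1 - w.1| = w.1 - x.1 := by rw [abs_sub_comm]; exact abs_of_nonneg (by omega)
        have h6 : |x.1 + 1 - w.1| = w.1 - x.1 - 1 := by
          rw [abs_sub_comm, abs_of_nonneg (by omega)]; omega
        push_cast at h1
        omega
      · rw [sd_le_iff]; simp only; omega
    · rcases lt_trichotomy x.2 w.2 with h' | h' | h'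
      · refine step (x.1, x.2 + 1) (x.1, x.2, false) (Or.inl ⟨rfl, rfl⟩) ?_ ?_
        · simp only
          have h5 : |x.2 - w.2| = w.2 - x.2 := by rw [abs_sub_comm]; exact abs_of_nonneg (by omega)
          have h6 : |x.2 + 1 - w.2| = w.2 - x.2 - 1 := by
            rw [abs_sub_comm, abs_of_nonneg (by omega)]; omega
          push_cast at h1
          omega
        · rw [sd_le_iff]; simp only; omega
      · have h2 : x = w := Prod.ext h h'
        rw [h2]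
        exact Reach.refl _ _
      · refine step (x.1, x.2 - 1) (x.1, x.2 - 1, false) (Or.inr ⟨rfl, ?_⟩) ?_ ?_
        · show (x.1, x.2 - 1 + 1) = x
          rw [sub_add_cancel]
        · simp only
          have h5 : |x.2 - w.2| = x.2 - w.2 := abs_of_nonneg (by omega)
          have h6 : |x.2 - 1 - w.2| = x.2 - w.2 - 1 := by
            rw [abs_of_nonneg (by omega)]; omega
          push_cast at h1
          omega
        · rw [sd_le_iff]; simp only; omega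
    · refine step (x.1 - 1, x.2) (x.1 - 1, x.2, true) (Or.inr ⟨rfl, ?_⟩) ?_ ?_
      · show (x.1 - 1 + 1, x.2) = x
        rw [sub_add_cancel]
      · simp only
        have h5 : |x.1 - w.1| = x.1 - w.1 := abs_of_nonneg (by omega)
        have h6 : |x.1 - 1 - w.1| = x.1 - w.1 - 1 := by
          rw [abs_of_nonneg (by omega)]; omega
        push_cast at h1
        omega
      · rw [sd_le_iff]; simp only; omega

/-- the first vertex in `C` of a path -/
theorem enterC {G : Set Edg} {C : Set Vtx} {x w : Vtx} (hx : x ∉ C) (hw : w ∈ C)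
    (h : Reach G x w) : ∃ p q, p ∉ C ∧ q ∈ C ∧ Adj G p q ∧
      Reach {e | e ∈ G ∧ src e ∉ C ∧ tgt e ∉ C} x p := by
  have key : ∀ b, Reach G x b → (∃ p q, p ∉ C ∧ q ∈ C ∧ Adj G p q ∧
      Reach {e | e ∈ G ∧ src e ∉ C ∧ tgt e ∉ C} x p) ∨
      (b ∉ C ∧ Reach {e | e ∈ G ∧ src e ∉ C ∧ tgt e ∉ C} x b) := by
    intro b hb
    induction hb with
    | refl => exact Or.inr ⟨hx, Reach.refl _ _⟩
    | @tail b c _ hs ih =>
      rcases ih with ih | ⟨h1, h2⟩
      · exact Or.inl ih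
      · by_cases hc : c ∈ C
        · exact Or.inl ⟨b, c, h1, hc, hs, h2⟩
        · refine Or.inr ⟨hc, h2.tail ?_⟩
          obtain ⟨e, he, h3⟩ := hs
          refine ⟨e, ⟨he, ?_, ?_⟩, h3⟩
          · rcases h3 with ⟨h4, -⟩ | ⟨h4, -⟩ <;> rw [h4] <;> assumption
          · rcases h3 with ⟨-, h4⟩ | ⟨-, h4⟩ <;> rw [h4] <;> assumption
  rcases key w h with h1 | ⟨h1, -⟩
  · exact h1
  · exact absurd hw h1

/-- a thick path gives accessibility -/
theorem nna {M B N r a : ℕ} (h : Num M B N r a) {w : Vtx} {F : Set Edg} {Z : Finset (ℤ × ℤ)}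
    {yh : ℤ} {C : Finset Vtx} (hw : sd w (0, 0) ≤ (r * a : ℕ)) (hP : PatOf M B N r a Z yh w F)
    (hwC : w ∈ C) (hC : ∀ c ∈ C, c ∈ KC w (512 * (N * a)) w F) : NNA N r a Z yh C w := by
  obtain ⟨hZ, x, hx, y, hy, hy1, hy2, hr⟩ := hP
  have ha := h.ha
  have hraN : 64 * (r * a) ≤ N * a := by
    rw [← mul_assoc]
    exact Nat.mul_le_mul_right _ h.hN
  have hra : 8 ≤ r * a := by
    have := Nat.mul_le_mul h.hr ha
    omega
  generalize hR : r * a = R at hraN hra hw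
  obtain ⟨Pp, hPp⟩ : ∃ Pp : Vtx → Prop, Pp = (fun p : Vtx => sd p (0, 0) ≤ (N * a : ℕ) ∧
        ∀ c ∈ KC w (512 * (N * a)) w F, Awy M B (8 * (N * a)) w c p) := ⟨_, rfl⟩
  have hthick : ∀ p, Pp p → p ∉ C ∧ (sd p (0, 0) ≤ (4 * r * a : ℕ) ∨ p ∈ rgn Z a 1) := by
    intro p hp
    rw [hPp] at hp
    refine ⟨?_, ?_⟩
    · intro hpC
      have h1 := hp.2 p (hC p hpC)
      unfold Pool.Agent.Y989.FR.Awy at h1
      rw [sd_self, mul_zero] at h1
      have h2 : 0 ≤ sd p w ^ B := pow_nonneg (sd_nonneg _ _) _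
      omega
    by_cases h1 : ((r * a : ℕ) : ℤ) ≤ 2 * sd p w
    · right
      rw [hZ]
      exact rgn1_of ha hp.1 h1 hp.2
    · left
      have h2 := sd_tri p w (0, 0)
      rw [hR] at h1
      rw [mul_assoc, hR]
      omega
  have hG : ∀ e ∈ TE' (512 * (N * a)) M B (8 * (N * a)) w F ∩ ↑(blk (0, 0) (N * a)),
      Pp (src e) ∧ Pp (tgt e) := by
    rintro e ⟨⟨h1, h2⟩, h3⟩
    have h4 := mem_blk.1 (Finset.mem_coe.1 h3)
    rw [hPp]
    exact ⟨⟨h4.1, h1⟩, h4.2, h2⟩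
  have hpath : Reach (AvE r a Z C) x y := by
    refine Reach.mono ?_ hr
    intro e he
    obtain ⟨h1, h2⟩ := hG e he
    exact ⟨hthick _ h1, hthick _ h2⟩
  have hxP : x ∉ C := by
    rcases Relation.ReflTransGen.cases_head hr with h1 | ⟨b, hs, -⟩
    · exfalso
      rw [← h1] at hy
      have h2 := sd_tri x w (0, 0)
      omega
    · exact (hthick x (adj_edge hs hG).1).1
  have hyc := cell ha y.2
  rw [hy2] at hyc
  obtain ⟨p, q, hp, hq, hpq, hxp⟩ := enterC (C := (↑C : Set Vtx)) (fun h => hxP (Finset.mem_coe.1 h))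
    (Finset.mem_coe.2 hwC) (boxconn w 2 4 x (by
      have h1 := sd_le_iff.1 hx.le
      have h2 : |x.1 - w.1| ≤ 2 := abs_le.2 (by omega)
      have h3 : |x.2 - w.2| ≤ 2 := abs_le.2 (by omega)
      push_cast
      omega) (by rw [hx]; norm_num))
  have hb2 : ∀ e ∈ (↑(blk w 2) : Set Edg), sd (src e) w ≤ 2 ∧ sd (tgt e) w ≤ 2 := by
    intro e he
    have := mem_blk.1 (Finset.mem_coe.1 he)
    exact_mod_cast this
  refine ⟨q, Finset.mem_coe.1 hq, ?_, p, fun h => hp (Finset.mem_coe.2 h), ?_, y,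
    ⟨_, Finset.mem_singleton_self _, ?_⟩, ?_⟩
  · exact (adj_edge (P := fun x => sd x w ≤ 2) hpq hb2).2
  · obtain ⟨e, -, he⟩ := hpq
    exact ⟨e, trivial, he⟩
  · rw [abs_le, abs_le, hy1]
    push_cast
    constructor <;> constructor <;> linarith
  · refine Reach.trans (Reach.symm (Reach.mono ?_ hxp)) hpath
    rintro e ⟨he, h1, h2⟩
    have h3 := hb2 e he
    have h4 : ∀ v, sd v w ≤ 2 → sd v (0, 0) ≤ (4 * r * a : ℕ) := by
      intro v hv
      have h5 := sd_tri v w (0, 0)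
      rw [mul_assoc, hR]
      omega
    exact ⟨⟨fun h => h1 (Finset.mem_coe.2 h), Or.inl (h4 _ h3.1)⟩,
      fun h => h2 (Finset.mem_coe.2 h), Or.inl (h4 _ h3.2)⟩

/-- the deterministic part, with the inclusions -/
theorem det' {M B N r a : ℕ} (h : Num M B N r a) {F : Finset Edg} {Z : Finset (ℤ × ℤ)} {yh : ℤ}
    {V : Finset Vtx} (hne : V.Nonempty) {c0 E0 t : ℝ}
    (hV : ∀ w ∈ V, w ∈ core (r * a) ∧ Ev (512 * (N * a)) M B (8 * (N * a)) (N * a) (r * a)
      (Lft (N * a)) w ↑F ∧ PatOf M B N r a Z yh w ↑F)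
    (hcard : c0 * (a : ℝ) ^ (4 / 3 : ℝ) ≤ (V.card : ℝ))
    (hen : En t V ≤ E0 * (a : ℝ) ^ (8 / 3 - t)) :
    ∃ C : Finset Vtx, IsT N a ↑F C ∧ (∀ w ∈ V, ∀ c ∈ C, c ∈ KC w (512 * (N * a)) w (↑F : Set Edg)) ∧
      V ⊆ C ∧ (∀ x ∈ C, x ∉ rgn Z a 16) ∧ Esc N r a Z yh C ↑F := by
  classical
  have ha := h.ha
  have hraN : 64 * (r * a) ≤ N * a := by
    rw [← mul_assoc]
    exact Nat.mul_le_mul_right _ h.hN
  have hra : 8 ≤ r * a := by
    have := Nat.mul_le_mul h.hr ha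
    omega
  obtain ⟨w0, hw0⟩ := hne
  obtain ⟨hc0, hE0, hP0⟩ := hV w0 hw0
  have hw00 := mem_core.1 hc0
  -- the cluster
  set C : Finset Vtx := (insert w0 (F.image src ∪ F.image tgt)).filter
    (fun x => Reach ((↑F : Set Edg) ∩ ↑(TE N a)) w0 x) with hCdef
  have hC : ∀ x, x ∈ C ↔ Reach ((↑F : Set Edg) ∩ ↑(TE N a)) w0 x := by
    intro x
    rw [hCdef, Finset.mem_filter]
    exact ⟨fun h => h.2, fun h => ⟨reach_mem Set.inter_subset_left h, h⟩⟩
  clear_value C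
  -- linear forms
  obtain ⟨n, hn⟩ : ∃ n : ℕ, n = N * a := ⟨_, rfl⟩
  obtain ⟨R, hR⟩ : ∃ R : ℕ, R = r * a := ⟨_, rfl⟩
  obtain ⟨P, hP⟩ : ∃ P : ℕ, P = (N + 10) * a := ⟨_, rfl⟩
  obtain ⟨Q, hQ⟩ : ∃ Q : ℕ, Q = (2 * N + 10) * a := ⟨_, rfl⟩
  have hTE : TE N a = RE (-(n : ℤ)) n (-((2 * n : ℕ) : ℤ)) (2 * n : ℕ) := by
    unfold TE
    rw [mul_assoc 2 N a, ← hn]
  have hTP : V5helper99.OB.TP N a = RE (-(P : ℤ)) P (-(Q : ℤ)) Q := by
    rw [hP, hQ]; rfl
  have e1 : P = n + 10 * a := by rw [hP, hn]; ring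
  have e2 : Q = 2 * n + 10 * a := by rw [hQ, hn]; ring
  have e3 : 512 * a ≤ n := by
    rw [hn]
    exact Nat.mul_le_mul_right _ (by have := h.hN; have := h.hr; omega)
  have e4 : 8 * r * a = 8 * R := by rw [hR]; ring
  rw [← hn, ← hR] at hraN
  rw [← hR] at hra hw00 hc0
  rw [← hn, ← hR] at hE0
  -- inclusions
  have hQT : blk (0, 0) n ⊆ TE N a := by
    intro e he
    rw [hTE, mem_re]
    have h1 := mem_blk.1 he
    rw [sd_le_iff, sd_le_iff] at h1
    simp only [sub_zero] at h1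
    simp only [abs_le]
    push_cast at h1 ⊢
    omega
  have hTm : ∀ w, sd w (0, 0) ≤ R → TE N a ⊆ blk w (512 * n) := by
    intro w hw e he
    rw [hTE, mem_re] at he
    simp only [abs_le] at he
    have h1 := sd_le_iff.1 hw
    simp only [sub_zero] at h1
    rw [mem_blk, sd_le_iff, sd_le_iff]
    push_cast at he h1 ⊢
    omega
  have hKC : ∀ x, x ∈ KC (0, 0) n w0 (↑F : Set Edg) → x ∈ C := fun x hx =>
    (hC x).2 (Reach.mono (Set.inter_subset_inter_right _ (Finset.coe_subset.2 hQT)) hx)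
  have hVC : ∀ w ∈ V, w ∈ C := by
    intro w hw
    obtain ⟨h1, h2, -⟩ := hV w hw
    have h1' := mem_core.1 h1
    rw [← hR] at h1'
    rw [← hn, ← hR] at h2
    apply hKC
    obtain ⟨y, hy, hyK⟩ := h2.1
    have h3 := sd_tri y (0, 0) w
    rw [sd_comm (0, 0) w] at h3
    obtain ⟨y', hy', hr'⟩ := firstX' (k := n) (c := (0, 0)) (by omega) (by push_cast at hy; omega) hyK
    refine hE0.2.2 w (by push_cast; omega) y' hy' (Reach.mono ?_ hr')
    rintro e ⟨⟨h4, -⟩, h5⟩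
    exact ⟨h4, h5⟩
  have hCK : ∀ w ∈ V, ∀ c ∈ C, c ∈ KC w (512 * (N * a)) w (↑F : Set Edg) := by
    intro w hw c hc
    have h1 := mem_core.1 (hV w hw).1
    rw [← hR] at h1
    rw [← hn]
    have h2 := (((hC w).1 (hVC w hw)).symm).trans ((hC c).1 hc)
    exact Reach.mono (Set.inter_subset_inter_right _ (Finset.coe_subset.2 (hTm w h1))) h2
  have hch : ∀ w ∈ V, Chn (M1 M B N) B N r a Z yh C w ∧ (-(N : ℤ), yh) ∈ Z ∧
      -(N : ℤ) ≤ yh ∧ yh ≤ N := fun w hw =>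
    chain h (mem_core.1 (hV w hw).1) (hV w hw).2.2 (hCK w hw)
  have hmth : (-(N : ℤ), yh) ∈ Z := (hch w0 hw0).2.1
  have hZ0 : Z = Zc M B N r a w0 ↑F := hP0.1
  have hav : ∀ x, x ∈ KC w0 (512 * n) w0 (↑F : Set Edg) → x ∉ rgn Z a 16 := by
    intro x hx
    rw [hn] at hx
    rw [hZ0]
    exact avoid h hx
  refine ⟨C, ⟨w0, hVC w0 hw0, hC⟩, hCK, hVC, ?_, ?_⟩
  · intro x hx
    apply hav
    have := hCK w0 hw0 x hx
    rwa [← hn] at this
  -- the escape
  obtain ⟨y, hy, hyK⟩ := hE0.1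
  set D : Set Vtx := KC w0 (512 * n) w0 (↑F : Set Edg) with hD
  have hyD : (n : ℤ) ≤ sd y (0, 0) ∧ (Q : ℤ) < sd y (0, 0) := by
    have h3 := sd_tri y (0, 0) w0
    rw [sd_comm (0, 0) w0] at h3
    push_cast at hy
    omega
  have hfar : ∀ x, x ∈ D → x ∉ C → (8 * R : ℤ) < sd x (0, 0) := by
    intro x hx hxC
    by_contra hcon
    push Not at hcon
    apply hxC
    apply hKC
    have h1 : Reach ((↑F : Set Edg) ∩ ↑(blk w0 (512 * n))) x y :=
      (Reach.symm hx).trans hyK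
    obtain ⟨y', hy', hr'⟩ := firstX' (k := n) (c := (0, 0)) (by omega) hyD.1 h1
    refine hE0.2.2 x (by push_cast; omega) y' hy' (Reach.mono ?_ hr')
    rintro e ⟨⟨h4, -⟩, h5⟩
    exact ⟨h4, h5⟩
  -- the path to the boundary of `T⁺`
  have hw0' := sd_le_iff.1 hw00
  simp only [sub_zero] at hw0'
  rcases firstR (P := P) (Q := Q) (by simp only [abs_le]; omega) hyK with h1 | ⟨y', hy', hr'⟩
  · exfalso
    obtain ⟨⟨h2, h3⟩, -⟩ := h1
    rw [abs_le] at h2 h3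
    have h4 : sd y (0, 0) ≤ Q := by
      rw [sd_le_iff]
      simp only [sub_zero]
      omega
    omega
  have hcl1 : ∀ e ∈ ((↑F : Set Edg) ∩ ↑(blk w0 (512 * n))) ∩ ↑(RE (-(P : ℤ)) P (-(Q : ℤ)) Q),
      (src e ∈ D ↔ tgt e ∈ D) := by
    rintro e ⟨he, -⟩
    have h1 : Adj ((↑F : Set Edg) ∩ ↑(blk w0 (512 * n))) (src e) (tgt e) :=
      ⟨e, he, Or.inl ⟨rfl, rfl⟩⟩
    exact ⟨fun h => Reach.trans (F := (↑F : Set Edg) ∩ ↑(blk w0 (512 * n))) h h1.reach,
      fun h => Reach.trans (F := (↑F : Set Edg) ∩ ↑(blk w0 (512 * n))) h h1.symm.reach⟩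
  have hD0 : w0 ∈ D := Reach.refl _ _
  have h2 := (inD hD0 hcl1 hr').1
  obtain ⟨c, hc, hcr⟩ := lastC (T := (↑(TE N a) : Set Edg)) (C := (↑C : Set Vtx)) (by
    rintro e ⟨⟨⟨he, -⟩, -⟩, -⟩ heT
    have h1 : Adj ((↑F : Set Edg) ∩ ↑(TE N a)) (src e) (tgt e) :=
      ⟨e, ⟨he, heT⟩, Or.inl ⟨rfl, rfl⟩⟩
    rw [Finset.mem_coe, Finset.mem_coe, hC, hC]
    exact ⟨fun h => h.trans h1.reach, fun h => h.trans h1.symm.reach⟩)
    (Finset.mem_coe.2 (hVC w0 hw0)) h2
  refine ⟨c, Finset.mem_coe.1 hc, y', ?_, hcr.mono ?_⟩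
  · rw [← hP, ← hQ]
    exact hy'
  rintro e ⟨⟨⟨⟨heF, -⟩, heP⟩, heD1, heD2⟩, heT⟩
  have key : ∀ x, x ∈ D → (x ∉ C ∨ (8 * R : ℤ) < sd x (0, 0)) → x ∉ WS N r a Z yh := by
    intro x hx hx2 hW
    rcases hW with hW | hW | hW
    · apply hav x hx
      obtain ⟨z, hz, h3, h4⟩ := hW
      refine ⟨z, hz, h3.trans ?_, h4.trans ?_⟩ <;> push_cast <;> omega
    · apply hav x hx
      refine ⟨_, hmth, ?_, hW.2⟩
      have h3 := hW.1
      rw [← hn] at h3
      have h4 : x.1 - -(N : ℤ) * a = x.1 + (n : ℤ) := by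
        rw [hn]; push_cast; ring
      rw [h4]
      exact h3
    · rw [e4] at hW
      push_cast at hW
      rcases hx2 with h3 | h3
      · have := hfar x hx h3
        omega
      · omega
  have hTend : e ∉ TE N a → (8 * R : ℤ) < sd (src e) (0, 0) ∧ (8 * R : ℤ) < sd (tgt e) (0, 0) := by
    intro heN
    have h3 : sd (src e) (tgt e) ≤ 1 :=
      adj_sd (G := Set.univ) ⟨e, trivial, Or.inl ⟨rfl, rfl⟩⟩
    have h4 := sd_tri (src e) (tgt e) (0, 0)
    have h5 := sd_tri (tgt e) (src e) (0, 0)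
    rw [sd_comm (tgt e) (src e)] at h5
    have h6 : ¬ (sd (src e) (0, 0) ≤ n ∧ sd (tgt e) (0, 0) ≤ n) := by
      rintro ⟨h7, h8⟩
      exact heN (hQT (mem_blk.2 ⟨h7, h8⟩))
    omega
  refine ⟨heF, ?_, ?_, ?_, ?_⟩
  · rw [hTP]
    exact Finset.mem_coe.1 heP
  · intro h3
    unfold tE at h3
    rw [Finset.mem_filter] at h3
    rcases heT with h4 | h4
    · exact h4 (Finset.mem_coe.2 h3.1)
    · rcases h3.2 with h5 | h5
      · exact h4.1 (Finset.mem_coe.2 h5)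
      · exact h4.2 (Finset.mem_coe.2 h5)
  · apply key _ heD1
    rcases heT with h4 | h4
    · exact Or.inr (hTend fun h => h4 (Finset.mem_coe.2 h)).1
    · exact Or.inl fun h => h4.1 (Finset.mem_coe.2 h)
  · apply key _ heD2
    rcases heT with h4 | h4
    · exact Or.inr (hTend fun h => h4 (Finset.mem_coe.2 h)).2
    · exact Or.inl fun h => h4.2 (Finset.mem_coe.2 h)



/-- **The deterministic part**, with accessibility. -/
theorem detA {M B N r a : ℕ} (h : Num M B N r a) {F : Finset Edg} {Z : Finset (ℤ × ℤ)} {yh : ℤ}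
    {V : Finset Vtx} (hne : V.Nonempty) {c0 E0 t : ℝ}
    (hV : ∀ w ∈ V, w ∈ core (r * a) ∧ Ev (512 * (N * a)) M B (8 * (N * a)) (N * a) (r * a)
      (Lft (N * a)) w ↑F ∧ PatOf M B N r a Z yh w ↑F)
    (hcard : c0 * (a : ℝ) ^ (4 / 3 : ℝ) ≤ (V.card : ℝ))
    (hen : En t V ≤ E0 * (a : ℝ) ^ (8 / 3 - t)) :
    BevA (M1 M B N) B N r c0 E0 t a Z yh F := by
  obtain ⟨C, hT, hCK, hVC, hX, hE⟩ := det' h hne hV hcard hen
  refine ⟨C, hT, ⟨hX, V, hVC, hcard, hen, fun w hw => ?_⟩, hE⟩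
  exact ⟨mem_core.1 (hV w hw).1, (chain h (mem_core.1 (hV w hw).1) (hV w hw).2.2 (hCK w hw)).1,
    nna h (mem_core.1 (hV w hw).1) (hV w hw).2.2 (hVC hw) (hCK w hw)⟩

theorem BevA_local {M B N r : ℕ} {c0 E0 t : ℝ} {a : ℕ} {Z : Finset (ℤ × ℤ)} {yh : ℤ}
    (F : Finset Edg) : BevA M B N r c0 E0 t a Z yh F ↔
      BevA M B N r c0 E0 t a Z yh (F ∩ V5helper99.OB.TP N a) := by
  have hsub : TE N a ⊆ V5helper99.OB.TP N a := by
    unfold TE V5helper99.OB.TP
    have e1 : (N + 10) * a = N * a + 10 * a := by ring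
    have e2 : (2 * N + 10) * a = 2 * N * a + 10 * a := by ring
    apply RE_subset <;> simp only [neg_le_neg_iff, Nat.cast_le] <;> omega
  have h1 : (↑(F ∩ V5helper99.OB.TP N a) : Set Edg) ∩ ↑(TE N a) = (↑F : Set Edg) ∩ ↑(TE N a) := by
    rw [Finset.coe_inter, Set.inter_assoc, Set.inter_eq_right.2 (Finset.coe_subset.2 hsub)]
  have h2 : ∀ C : Finset Vtx, (↑(F ∩ V5helper99.OB.TP N a) : Set Edg) ∩
      {e | e ∈ V5helper99.OB.TP N a ∧ e ∉ tE N a C ∧ src e ∉ WS N r a Z yh ∧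
        tgt e ∉ WS N r a Z yh} =
      (↑F : Set Edg) ∩ {e | e ∈ V5helper99.OB.TP N a ∧ e ∉ tE N a C ∧ src e ∉ WS N r a Z yh ∧
        tgt e ∉ WS N r a Z yh} := by
    intro C
    ext e
    simp only [Finset.coe_inter, Set.mem_inter_iff, Finset.mem_coe, Set.mem_ofPred_eq]
    tauto
  unfold BevA IsT Esc
  simp only [h1, h2]

/-- **BOXA** -/
theorem t_BOXAc (hA : S_ACC) (hT : S_THK) (hU : S_U3) : S_BOXA := by
  classical
  obtain ⟨M, B, Λ, R0, hM, hB, hΛ, hR0, hgood⟩ := good hA hT hU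
  intro t ht ht1
  obtain ⟨c0, E0, p, hc0, hE0, hp, hgood⟩ := hgood t ht ht1
  obtain ⟨b, rfl⟩ : ∃ b, B = b + 1 := ⟨B - 1, by omega⟩
  -- the numbers
  obtain ⟨r, hr⟩ : ∃ r : ℕ, r = 20 * 2 ^ (b + 1) * M * (64 * Λ) ^ b := ⟨_, rfl⟩
  have hr8 : 8 ≤ r := by
    have h1 : 1 ≤ 2 ^ (b + 1) := Nat.one_le_pow _ _ (by norm_num)
    have h2 : 1 ≤ (64 * Λ) ^ b := Nat.one_le_pow _ _ (by omega)
    rw [hr]
    calc 8 ≤ 20 * 1 * 1 * 1 := by norm_num
      _ ≤ _ := Nat.mul_le_mul (Nat.mul_le_mul (Nat.mul_le_mul_left _ h1) hM) h2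
  obtain ⟨N, hN⟩ : ∃ N : ℕ, N = Λ * r := ⟨_, rfl⟩
  have hNr : 64 * r ≤ N := by rw [hN]; exact Nat.mul_le_mul_right _ hΛ
  have hnum : ∀ a, 1 ≤ a → Num M (b + 1) N r a := by
    intro a ha
    refine ⟨ha, hB, hr8, hNr, le_of_eq ?_⟩
    rw [Nat.add_sub_cancel, hN, show 64 * (Λ * r) = 64 * Λ * r by ring, mul_pow (64 * Λ) r b,
      ← mul_assoc, ← hr, pow_succ]
    ring
  have hr0 : (0 : ℝ) < r := by exact_mod_cast (by omega : 0 < r)
  set κ : ℝ := ((PP N).card : ℝ) with hκ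
  have hκ0 : 0 < κ := by
    rw [hκ]
    exact_mod_cast (PP_nonempty N).card_pos
  refine ⟨M1 M (b + 1) N, b + 1, N, r, R0, c0 / κ, E0 * (r : ℝ) ^ (8 / 3 - t), p / (2 * κ), ?_, hB,
    hr8, hNr, hR0, by positivity, by positivity, by positivity, ?_⟩
  · unfold M1
    have : 1 ≤ 2 ^ (b + 1) := Nat.one_le_pow _ _ (by norm_num)
    omega
  intro a ha
  have ha1 : 1 ≤ a := hR0.trans ha
  have ha0 : (0 : ℝ) < a := by exact_mod_cast ha1
  have hRa : R0 ≤ r * a := by nlinarith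
  have hg := hgood (r * a) hRa
  have hna : Λ * (r * a) = N * a := by rw [hN, mul_assoc]
  rw [hna] at hg
  set S := blk (0, 0) (513 * (N * a)) with hS
  -- contradiction
  by_contra hcon
  push Not at hcon
  have hsmall : ∀ q ∈ (PP N).filter (fun q => Pat N q.1 q.2),
      PQ (1 / 2) S (fun F => BevA (M1 M (b + 1) N) (b + 1) N r (c0 / κ)
        (E0 * (r : ℝ) ^ (8 / 3 - t)) t a q.1 q.2 F) ≤ p / (2 * κ) := by
    intro q hq
    rw [Finset.mem_filter] at hq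
    have h1 := hcon q.1 q.2 hq.2
    refine le_trans (le_of_eq ?_) h1.le
    apply Pr_local
    · have e1 : (N + 10) * a ≤ 513 * (N * a) := by nlinarith
      have e2 : (2 * N + 10) * a ≤ 513 * (N * a) := by nlinarith
      rw [hS]
      unfold V5helper99.OB.TP H12S.blk
      apply RE_subset <;> simp only [zero_sub, zero_add, neg_le_neg_iff, Nat.cast_le] <;> omega
    · intro F _
      exact BevA_local F
  have hcov : PQ (1 / 2) S (fun F =>
        c0 * ((r * a : ℕ) : ℝ) ^ (4 / 3 : ℝ) ≤ ((VF (fun w F => Ev (512 * (N * a)) M (b + 1)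
          (8 * (N * a)) (N * a) (r * a) (Lft (N * a)) w ↑F) (r * a) F).card : ℝ) ∧
        En t (VF (fun w F => Ev (512 * (N * a)) M (b + 1) (8 * (N * a)) (N * a) (r * a)
          (Lft (N * a)) w ↑F) (r * a) F) ≤ E0 * ((r * a : ℕ) : ℝ) ^ (8 / 3 - t)) ≤
      ∑ q ∈ (PP N).filter (fun q => Pat N q.1 q.2),
        PQ (1 / 2) S (fun F => BevA (M1 M (b + 1) N) (b + 1) N r (c0 / κ)
          (E0 * (r : ℝ) ^ (8 / 3 - t)) t a q.1 q.2 F) := by
    refine le_trans (Pr_mono okh ?_) (Pr_exists_le okh S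
      ((PP N).filter (fun q => Pat N q.1 q.2)) (fun q F => BevA (M1 M (b + 1) N) (b + 1) N r (c0 / κ)
          (E0 * (r : ℝ) ^ (8 / 3 - t)) t a q.1 q.2 F))
    rintro F _ ⟨h1, h2⟩
    set V := VF (fun w F => Ev (512 * (N * a)) M (b + 1) (8 * (N * a)) (N * a) (r * a)
          (Lft (N * a)) w ↑F) (r * a) F with hV
    have hVm : ∀ w ∈ V, w ∈ core (r * a) ∧ Ev (512 * (N * a)) M (b + 1) (8 * (N * a)) (N * a)
        (r * a) (Lft (N * a)) w ↑F := by
      intro w hw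
      rw [hV] at hw
      unfold VF at hw
      rwa [Finset.mem_filter] at hw
    -- the patterns
    have hex : ∀ w : Vtx, ∃ q : Finset (ℤ × ℤ) × ℤ, w ∈ V →
        (q ∈ PP N ∧ PatOf M (b + 1) N r a q.1 q.2 w ↑F) := by
      intro w
      by_cases hw : w ∈ V
      · obtain ⟨q, hq⟩ := exists_pat ha1 (hVm w hw).2
        exact ⟨q, fun _ => hq⟩
      · exact ⟨(∅, 0), fun h => absurd h hw⟩
    choose f hf using hex
    obtain ⟨q, hq, hq2⟩ := Finset.exists_le_card_fiber_of_nsmul_le_card_of_maps_to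
      (s := V) (t := PP N) (f := f) (b := (V.card : ℝ) / κ) (fun w hw => (hf w hw).1)
      (PP_nonempty N) (by
        rw [nsmul_eq_mul, ← hκ, mul_div_cancel₀ _ hκ0.ne'])
    set V' := V.filter (fun w => f w = q) with hV'
    have hra1 : (a : ℝ) ^ (4 / 3 : ℝ) ≤ ((r * a : ℕ) : ℝ) ^ (4 / 3 : ℝ) := by
      refine Real.rpow_le_rpow ha0.le ?_ (by norm_num)
      exact_mod_cast Nat.le_mul_of_pos_left a (by omega)
    have hcard : c0 / κ * (a : ℝ) ^ (4 / 3 : ℝ) ≤ (V'.card : ℝ) := by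
      refine le_trans ?_ hq2
      rw [div_mul_eq_mul_div]
      refine div_le_div_of_nonneg_right ?_ hκ0.le
      exact (mul_le_mul_of_nonneg_left hra1 hc0.le).trans h1
    have hpos : 0 < c0 / κ * (a : ℝ) ^ (4 / 3 : ℝ) := by positivity
    have hne : V'.Nonempty := by
      rw [← Finset.card_pos]
      have : (0 : ℝ) < (V'.card : ℝ) := lt_of_lt_of_le hpos hcard
      exact_mod_cast this
    have hen : En t V' ≤ E0 * (r : ℝ) ^ (8 / 3 - t) * (a : ℝ) ^ (8 / 3 - t) := by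
      refine (En_mono t (Finset.filter_subset _ _)).trans (h2.trans (le_of_eq ?_))
      push_cast
      rw [Real.mul_rpow hr0.le ha0.le]
      ring
    have hdet := detA (hnum a ha1) (Z := q.1) (yh := q.2) hne (F := F) (c0 := c0 / κ)
      (E0 := E0 * (r : ℝ) ^ (8 / 3 - t)) (t := t) (by
        intro w hw
        rw [hV', Finset.mem_filter] at hw
        have h3 := hVm w hw.1
        have h4 := (hf w hw.1).2
        rw [hw.2] at h4
        exact ⟨h3.1, h3.2, h4⟩) hcard hen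
    refine ⟨q, Finset.mem_filter.2 ⟨hq, ?_, ?_⟩, hdet⟩
    · intro z hz
      unfold PP at hq
      rw [Finset.mem_product, Finset.mem_powerset] at hq
      have h3 := hq.1 hz
      rw [Finset.mem_product, Finset.mem_Icc, Finset.mem_Icc] at h3
      rw [abs_le, abs_le]
      exact h3
    · obtain ⟨w, hw⟩ := hne
      rw [hV', Finset.mem_filter] at hw
      have h3 := hVm w hw.1
      have h4 := (hf w hw.1).2
      rw [hw.2] at h4
      exact (chain (hnum a ha1) (C := ∅) (mem_core.1 h3.1) h4 (by simp)).2.1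
  have hsum : ∑ q ∈ (PP N).filter (fun q => Pat N q.1 q.2),
        PQ (1 / 2) S (fun F => BevA (M1 M (b + 1) N) (b + 1) N r (c0 / κ)
          (E0 * (r : ℝ) ^ (8 / 3 - t)) t a q.1 q.2 F) ≤ p / 2 := by
    refine (Finset.sum_le_sum hsmall).trans ?_
    rw [Finset.sum_const, nsmul_eq_mul]
    have h1 : (((PP N).filter (fun q => Pat N q.1 q.2)).card : ℝ) ≤ κ := by
      rw [hκ]
      exact_mod_cast Finset.card_filter_le _ _
    calc (((PP N).filter (fun q => Pat N q.1 q.2)).card : ℝ) * (p / (2 * κ))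
        ≤ κ * (p / (2 * κ)) := mul_le_mul_of_nonneg_right h1 (by positivity)
      _ = p / 2 := by field_simp
  linarith

/-- **BOXA** -/
theorem t_BOXA : S_BOXA :=
  t_BOXAc (Pool.Agent.Y989.FR.ACC.t_ACC Pool.Agent.Y989.FR.a_L3)
    (Pool.Agent.Y989.FR.a_THK Pool.Agent.Y989.FR.a_JR Pool.Agent.Y989.FR.a_U3)
    Pool.Agent.Y989.FR.a_U3

end Pool.Agent.V5helper72.OB
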