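import Pool.Agent.V5helper72.OB.Det

/-!
# Box event: assembly (helper72, JOB BOX of helper99)
-/

set_option autoImplicit false

namespace Pool.Agent.V5helper72.OB

open H974 H973 H12S H934E Finset H984P H984N
open Pool.Agent.Y989.FR (AE Clu A3v Awy Acc TkA cl S_ACC S_THK S_U3)
open Pool.Agent.V5helper99.OB

/-- all the patterns -/
noncomputable def PP (N : ℕ) : Finset (Finset (ℤ × ℤ) × ℤ) :=
  (Finset.Icc (-(N : ℤ)) N ×ˢ Finset.Icc (-(N : ℤ)) N).powerset ×ˢ Finset.Icc (-(N : ℤ)) N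

theorem PP_nonempty (N : ℕ) : (PP N).Nonempty :=
  ⟨(∅, 0), by
    unfold PP
    rw [Finset.mem_product, Finset.mem_Icc]
    exact ⟨Finset.empty_mem_powerset _, by simp, by simp⟩⟩

theorem Zc_sub (M B N r a : ℕ) (w : Vtx) (F : Set Edg) :
    Zc M B N r a w F ⊆ Finset.Icc (-(N : ℤ)) N ×ˢ Finset.Icc (-(N : ℤ)) N := by
  classical
  unfold Zc
  exact Finset.filter_subset _ _

theorem exists_pat {M B N r a : ℕ} (ha : 1 ≤ a) {w : Vtx} {F : Set Edg}
    (hE : Ev (512 * (N * a)) M B (8 * (N * a)) (N * a) (r * a) (Lft (N * a)) w F) :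
    ∃ q : Finset (ℤ × ℤ) × ℤ, q ∈ PP N ∧ PatOf M B N r a q.1 q.2 w F := by
  obtain ⟨-, ⟨x, hx, y, hy, hy1, hr⟩, -⟩ := hE
  refine ⟨(Zc M B N r a w F, y.2 / (a : ℤ)), ?_, rfl, x, hx, y, hy, hy1, rfl, hr⟩
  have h1 := sd_le_iff.1 hy.le
  simp only [sub_zero] at h1
  unfold PP
  rw [Finset.mem_product, Finset.mem_Icc, Finset.mem_powerset]
  exact ⟨Zc_sub _ _ _ _ _ _ _, cell_bd ha h1.2.1 h1.2.2⟩

theorem Bev_local {M B N r : ℕ} {c0 E0 t : ℝ} {a : ℕ} {Z : Finset (ℤ × ℤ)} {yh : ℤ}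
    (F : Finset Edg) : Bev M B N r c0 E0 t a Z yh F ↔
      Bev M B N r c0 E0 t a Z yh (F ∩ V5helper99.OB.TP N a) := by
  have hsub : TE N a ⊆ V5helper99.OB.TP N a := by
    unfold TE V5helper99.OB.TP
    have e1 : (N + 10) * a = N * a + 10 * a := by ring
    have e2 : (2 * N + 10) * a = 2 * N * a + 10 * a := by ring
    apply RE_subset <;> simp only [neg_le_neg_iff, Nat.cast_le] <;> omega
  have h1 : (↑(F ∩ V5helper99.OB.TP N a) : Set Edg) ∩ ↑(TE N a) = (↑F : Set Edg) ∩ ↑(TE N a) := by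
    rw [Finset.coe_inter, Set.inter_assoc, Set.inter_eq_right.2 (Finset.coe_subset.2 hsub)]
  have h2 : ∀ C : Finset Vtx, (↑(F ∩ V5helper99.OB.TP N a) : Set Edg) ∩
      {e | e ∈ V5helper99.OB.TP N a ∧ e ∉ tE N a C ∧ src e ∉ WS N r a Z yh ∧
        tgt e ∉ WS N r a Z yh} =
      (↑F : Set Edg) ∩ {e | e ∈ V5helper99.OB.TP N a ∧ e ∉ tE N a C ∧ src e ∉ WS N r a Z yh ∧
        tgt e ∉ WS N r a Z yh} := by
    intro C
    ext e
    simp only [Finset.coe_inter, Set.mem_inter_iff, Finset.mem_coe, Set.mem_ofPred_eq]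
    tauto
  unfold Bev IsT Esc
  simp only [h1, h2]

/-- **BOX** -/
theorem t_BOXc (hA : S_ACC) (hT : S_THK) (hU : S_U3) : S_BOX := by
  classical
  obtain ⟨M, B, Λ, R0, hM, hB, hΛ, hR0, hgood⟩ := good hA hT hU
  intro t ht ht1
  obtain ⟨c0, E0, p, hc0, hE0, hp, hgood⟩ := hgood t ht ht1
  obtain ⟨b, rfl⟩ : ∃ b, B = b + 1 := ⟨B - 1, by omega⟩
  -- the numbers
  obtain ⟨r, hr⟩ : ∃ r : ℕ, r = 20 * 2 ^ (b + 1) * M * (64 * Λ) ^ b := ⟨_, rfl⟩
  have hr8 : 8 ≤ r := by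
    have h1 : 1 ≤ 2 ^ (b + 1) := Nat.one_le_pow _ _ (by norm_num)
    have h2 : 1 ≤ (64 * Λ) ^ b := Nat.one_le_pow _ _ (by omega)
    rw [hr]
    calc 8 ≤ 20 * 1 * 1 * 1 := by norm_num
      _ ≤ _ := Nat.mul_le_mul (Nat.mul_le_mul (Nat.mul_le_mul_left _ h1) hM) h2
  obtain ⟨N, hN⟩ : ∃ N : ℕ, N = Λ * r := ⟨_, rfl⟩
  have hNr : 64 * r ≤ N := by rw [hN]; exact Nat.mul_le_mul_right _ hΛ
  have hnum : ∀ a, 1 ≤ a → Num M (b + 1) N r a := by
    intro a ha
    refine ⟨ha, hB, hr8, hNr, le_of_eq ?_⟩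
    rw [Nat.add_sub_cancel, hN, show 64 * (Λ * r) = 64 * Λ * r by ring, mul_pow (64 * Λ) r b,
      ← mul_assoc, ← hr, pow_succ]
    ring
  have hr0 : (0 : ℝ) < r := by exact_mod_cast (by omega : 0 < r)
  set κ : ℝ := ((PP N).card : ℝ) with hκ
  have hκ0 : 0 < κ := by
    rw [hκ]
    exact_mod_cast (PP_nonempty N).card_pos
  refine ⟨M1 M (b + 1) N, b + 1, N, r, R0, c0 / κ, E0 * (r : ℝ) ^ (8 / 3 - t), p / (2 * κ), ?_, hB,
    hr8, hNr, hR0, by positivity, by positivity, by positivity, ?_⟩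
  · unfold M1
    have : 1 ≤ 2 ^ (b + 1) := Nat.one_le_pow _ _ (by norm_num)
    omega
  intro a ha
  have ha1 : 1 ≤ a := hR0.trans ha
  have ha0 : (0 : ℝ) < a := by exact_mod_cast ha1
  have hRa : R0 ≤ r * a := by nlinarith
  have hg := hgood (r * a) hRa
  have hna : Λ * (r * a) = N * a := by rw [hN, mul_assoc]
  rw [hna] at hg
  set S := blk (0, 0) (513 * (N * a)) with hS
  -- contradiction
  by_contra hcon
  push Not at hcon
  have hsmall : ∀ q ∈ (PP N).filter (fun q => Pat N q.1 q.2),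
      PQ (1 / 2) S (fun F => Bev (M1 M (b + 1) N) (b + 1) N r (c0 / κ)
        (E0 * (r : ℝ) ^ (8 / 3 - t)) t a q.1 q.2 F) ≤ p / (2 * κ) := by
    intro q hq
    rw [Finset.mem_filter] at hq
    have h1 := hcon q.1 q.2 hq.2
    refine le_trans (le_of_eq ?_) h1.le
    apply Pr_local
    · have e1 : (N + 10) * a ≤ 513 * (N * a) := by nlinarith
      have e2 : (2 * N + 10) * a ≤ 513 * (N * a) := by nlinarith
      rw [hS]
      unfold V5helper99.OB.TP H12S.blk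
      apply RE_subset <;> simp only [zero_sub, zero_add, neg_le_neg_iff, Nat.cast_le] <;> omega
    · intro F _
      exact Bev_local F
  have hcov : PQ (1 / 2) S (fun F =>
        c0 * ((r * a : ℕ) : ℝ) ^ (4 / 3 : ℝ) ≤ ((VF (fun w F => Ev (512 * (N * a)) M (b + 1)
          (8 * (N * a)) (N * a) (r * a) (Lft (N * a)) w ↑F) (r * a) F).card : ℝ) ∧
        En t (VF (fun w F => Ev (512 * (N * a)) M (b + 1) (8 * (N * a)) (N * a) (r * a)
          (Lft (N * a)) w ↑F) (r * a) F) ≤ E0 * ((r * a : ℕ) : ℝ) ^ (8 / 3 - t)) ≤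
      ∑ q ∈ (PP N).filter (fun q => Pat N q.1 q.2),
        PQ (1 / 2) S (fun F => Bev (M1 M (b + 1) N) (b + 1) N r (c0 / κ)
          (E0 * (r : ℝ) ^ (8 / 3 - t)) t a q.1 q.2 F) := by
    refine le_trans (Pr_mono okh ?_) (Pr_exists_le okh S
      ((PP N).filter (fun q => Pat N q.1 q.2)) (fun q F => Bev (M1 M (b + 1) N) (b + 1) N r (c0 / κ)
          (E0 * (r : ℝ) ^ (8 / 3 - t)) t a q.1 q.2 F))
    rintro F _ ⟨h1, h2⟩
    set V := VF (fun w F => Ev (512 * (N * a)) M (b + 1) (8 * (N * a)) (N * a) (r * a)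
          (Lft (N * a)) w ↑F) (r * a) F with hV
    have hVm : ∀ w ∈ V, w ∈ core (r * a) ∧ Ev (512 * (N * a)) M (b + 1) (8 * (N * a)) (N * a)
        (r * a) (Lft (N * a)) w ↑F := by
      intro w hw
      rw [hV] at hw
      unfold VF at hw
      rwa [Finset.mem_filter] at hw
    -- the patterns
    have hex : ∀ w : Vtx, ∃ q : Finset (ℤ × ℤ) × ℤ, w ∈ V →
        (q ∈ PP N ∧ PatOf M (b + 1) N r a q.1 q.2 w ↑F) := by
      intro w
      by_cases hw : w ∈ V
      · obtain ⟨q, hq⟩ := exists_pat ha1 (hVm w hw).2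
        exact ⟨q, fun _ => hq⟩
      · exact ⟨(∅, 0), fun h => absurd h hw⟩
    choose f hf using hex
    obtain ⟨q, hq, hq2⟩ := Finset.exists_le_card_fiber_of_nsmul_le_card_of_maps_to
      (s := V) (t := PP N) (f := f) (b := (V.card : ℝ) / κ) (fun w hw => (hf w hw).1)
      (PP_nonempty N) (by
        rw [nsmul_eq_mul, ← hκ, mul_div_cancel₀ _ hκ0.ne'])
    set V' := V.filter (fun w => f w = q) with hV'
    have hra1 : (a : ℝ) ^ (4 / 3 : ℝ) ≤ ((r * a : ℕ) : ℝ) ^ (4 / 3 : ℝ) := by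
      refine Real.rpow_le_rpow ha0.le ?_ (by norm_num)
      exact_mod_cast Nat.le_mul_of_pos_left a (by omega)
    have hcard : c0 / κ * (a : ℝ) ^ (4 / 3 : ℝ) ≤ (V'.card : ℝ) := by
      refine le_trans ?_ hq2
      rw [div_mul_eq_mul_div]
      refine div_le_div_of_nonneg_right ?_ hκ0.le
      exact (mul_le_mul_of_nonneg_left hra1 hc0.le).trans h1
    have hpos : 0 < c0 / κ * (a : ℝ) ^ (4 / 3 : ℝ) := by positivity
    have hne : V'.Nonempty := by
      rw [← Finset.card_pos]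
      have : (0 : ℝ) < (V'.card : ℝ) := lt_of_lt_of_le hpos hcard
      exact_mod_cast this
    have hen : En t V' ≤ E0 * (r : ℝ) ^ (8 / 3 - t) * (a : ℝ) ^ (8 / 3 - t) := by
      refine (En_mono t (Finset.filter_subset _ _)).trans (h2.trans (le_of_eq ?_))
      push_cast
      rw [Real.mul_rpow hr0.le ha0.le]
      ring
    have hdet := det (hnum a ha1) (Z := q.1) (yh := q.2) hne (F := F) (c0 := c0 / κ)
      (E0 := E0 * (r : ℝ) ^ (8 / 3 - t)) (t := t) (by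
        intro w hw
        rw [hV', Finset.mem_filter] at hw
        have h3 := hVm w hw.1
        have h4 := (hf w hw.1).2
        rw [hw.2] at h4
        exact ⟨h3.1, h3.2, h4⟩) hcard hen
    refine ⟨q, Finset.mem_filter.2 ⟨hq, ?_, ?_⟩, hdet⟩
    · intro z hz
      unfold PP at hq
      rw [Finset.mem_product, Finset.mem_powerset] at hq
      have h3 := hq.1 hz
      rw [Finset.mem_product, Finset.mem_Icc, Finset.mem_Icc] at h3
      rw [abs_le, abs_le]
      exact h3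
    · obtain ⟨w, hw⟩ := hne
      rw [hV', Finset.mem_filter] at hw
      have h3 := hVm w hw.1
      have h4 := (hf w hw.1).2
      rw [hw.2] at h4
      exact (chain (hnum a ha1) (C := ∅) (mem_core.1 h3.1) h4 (by simp)).2.1
  have hsum : ∑ q ∈ (PP N).filter (fun q => Pat N q.1 q.2),
        PQ (1 / 2) S (fun F => Bev (M1 M (b + 1) N) (b + 1) N r (c0 / κ)
          (E0 * (r : ℝ) ^ (8 / 3 - t)) t a q.1 q.2 F) ≤ p / 2 := by
    refine (Finset.sum_le_sum hsmall).trans ?_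
    rw [Finset.sum_const, nsmul_eq_mul]
    have h1 : (((PP N).filter (fun q => Pat N q.1 q.2)).card : ℝ) ≤ κ := by
      rw [hκ]
      exact_mod_cast Finset.card_filter_le _ _
    calc (((PP N).filter (fun q => Pat N q.1 q.2)).card : ℝ) * (p / (2 * κ))
        ≤ κ * (p / (2 * κ)) := mul_le_mul_of_nonneg_right h1 (by positivity)
      _ = p / 2 := by field_simp
  linarith

end Pool.Agent.V5helper72.OB
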