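import Pool.Agent.V5helper72.OB.Gd
import Pool.Agent.V5helper99.OB.Stm

/-!
# Box event: the deterministic part (helper72, JOB BOX of helper99)
-/

set_option autoImplicit false

namespace Pool.Agent.V5helper72.OB

open H974 H973 H12S H934E Finset H984P H984N
open Pool.Agent.Y989.FR (AE Clu A3v Awy Acc TkA cl S_ACC S_THK S_U3)
open Pool.Agent.V5helper99.OB

/-! ### Paths -/

/-- last visit of a set of vertices -/
theorem lastC {G T : Set Edg} {C : Set Vtx} (hcl : ∀ e ∈ G, e ∈ T → (src e ∈ C ↔ tgt e ∈ C))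
    {w y : Vtx} (hw : w ∈ C) (h : Reach G w y) :
    ∃ c ∈ C, Reach (G ∩ {e | e ∉ T ∨ (src e ∉ C ∧ tgt e ∉ C)}) c y := by
  induction h with
  | refl => exact ⟨w, hw, Reach.refl _ _⟩
  | @tail b y' _ hs ih =>
    by_cases hy : y' ∈ C
    · exact ⟨y', hy, Reach.refl _ _⟩
    · obtain ⟨c, hc, hr⟩ := ih
      refine ⟨c, hc, hr.trans (Adj.reach ?_)⟩
      obtain ⟨e, he, h1⟩ := hs
      refine ⟨e, ⟨he, ?_⟩, h1⟩
      by_cases hT : e ∈ T
      · right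
        have h2 := hcl e he hT
        rcases h1 with ⟨h3, h4⟩ | ⟨h3, h4⟩
        · rw [h3, h4] at h2 ⊢
          exact ⟨fun h => hy (h2.1 h), hy⟩
        · rw [h3, h4] at h2 ⊢
          exact ⟨hy, fun h => hy (h2.2 h)⟩
      · exact Or.inl hT

/-- the vertices of a path -/
theorem inD {G : Set Edg} {D : Set Vtx} {w y : Vtx} (hw : w ∈ D)
    (hcl : ∀ e ∈ G, (src e ∈ D ↔ tgt e ∈ D)) (h : Reach G w y) :
    Reach (G ∩ {e | src e ∈ D ∧ tgt e ∈ D}) w y ∧ y ∈ D := by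
  induction h with
  | refl => exact ⟨Reach.refl _ _, hw⟩
  | @tail b y' _ hs ih =>
    obtain ⟨h1, h2⟩ := ih
    obtain ⟨e, he, h3⟩ := hs
    have h4 := hcl e he
    rcases h3 with ⟨h5, h6⟩ | ⟨h5, h6⟩
    · rw [h5, h6] at h4
      exact ⟨h1.trans (Adj.reach ⟨e, ⟨he, by rw [h5]; exact h2, by rw [h6]; exact h4.1 h2⟩,
        Or.inl ⟨h5, h6⟩⟩), h4.1 h2⟩
    · rw [h5, h6] at h4
      exact ⟨h1.trans (Adj.reach ⟨e, ⟨he, by rw [h5]; exact h4.2 h2, by rw [h6]; exact h2⟩,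
        Or.inr ⟨h5, h6⟩⟩), h4.2 h2⟩

theorem mem_re {P Q : ℕ} {e : Edg} : e ∈ RE (-(P : ℤ)) P (-(Q : ℤ)) Q ↔
    (|(src e).1| ≤ P ∧ |(src e).2| ≤ Q) ∧ (|(tgt e).1| ≤ P ∧ |(tgt e).2| ≤ Q) := by
  simp only [abs_le]
  obtain ⟨x, y, _ | _⟩ := e
  · simp only [mem_RE_false, src, tgt]
    simp
    omega
  · simp only [mem_RE_true, src, tgt]
    simp
    omega

/-- first exit of a rectangle -/
theorem firstR {G : Set Edg} {P Q : ℕ} {u w : Vtx} (hu : |u.1| ≤ P ∧ |u.2| ≤ Q)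
    (h : Reach G u w) :
    ((|w.1| ≤ P ∧ |w.2| ≤ Q) ∧ Reach (G ∩ ↑(RE (-(P : ℤ)) P (-(Q : ℤ)) Q)) u w) ∨
      ∃ y : Vtx, (|y.1| = P ∨ |y.2| = Q) ∧ Reach (G ∩ ↑(RE (-(P : ℤ)) P (-(Q : ℤ)) Q)) u y := by
  induction h with
  | refl => exact Or.inl ⟨hu, Reach.refl _ _⟩
  | @tail w w' _ hs ih =>
    rcases ih with ⟨h1, h2⟩ | ih
    · by_cases hw' : |w'.1| ≤ P ∧ |w'.2| ≤ Q
      · left
        refine ⟨hw', h2.trans (Adj.reach ?_)⟩
        obtain ⟨e, he, h3⟩ := hs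
        refine ⟨e, ⟨he, Finset.mem_coe.2 (mem_re.2 ?_)⟩, h3⟩
        rcases h3 with ⟨h4, h5⟩ | ⟨h4, h5⟩
        · rw [h4, h5]; exact ⟨h1, hw'⟩
        · rw [h4, h5]; exact ⟨hw', h1⟩
      · right
        refine ⟨w, ?_, h2⟩
        have h4 := sd_le_iff.1 (adj_sd hs)
        rw [abs_le, abs_le] at h1 hw'
        have key : ∀ (a : ℤ) (d : ℕ), (|a| = (d : ℤ) ↔ (a = d ∨ a = -(d : ℤ))) :=
          fun a d => abs_eq (Int.natCast_nonneg d)
        rw [key, key]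
        omega
    · exact Or.inr ih

/-! ### Thickness -/

/-- numerical conditions -/
structure Num (M B N r a : ℕ) : Prop where
  ha : 1 ≤ a
  hB : 1 ≤ B
  hr : 8 ≤ r
  hN : 64 * r ≤ N
  hT : 20 * 2 ^ B * M * (64 * N) ^ (B - 1) ≤ r ^ B

theorem far {M B N r a : ℕ} (h : Num M B N r a) {w c p : Vtx}
    (hp : ((r * a : ℕ) : ℤ) ≤ 2 * sd p w) (hA : Awy M B (8 * (N * a)) w c p) :
    20 * (a : ℤ) < sd p c := by
  by_contra hcon
  push Not at hcon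
  unfold Awy at hA
  obtain ⟨b, rfl⟩ : ∃ b, B = b + 1 := ⟨B - 1, by have := h.hB; omega⟩
  rw [Nat.add_sub_cancel] at hA
  have h1 : (((r * a : ℕ) : ℤ)) ^ (b + 1) ≤ (2 * sd p w) ^ (b + 1) :=
    pow_le_pow_left₀ (by positivity) hp _
  rw [mul_pow] at h1
  have h2 : (M : ℤ) * ((8 * (8 * (N * a)) : ℕ) : ℤ) ^ b * sd p c ≤
      (M : ℤ) * ((8 * (8 * (N * a)) : ℕ) : ℤ) ^ b * (20 * a) :=
    mul_le_mul_of_nonneg_left hcon (by positivity)
  have h3 : (20 * 2 ^ (b + 1) * M * (64 * N) ^ b : ℤ) ≤ (r : ℤ) ^ (b + 1) := by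
    have := h.hT
    rw [Nat.add_sub_cancel] at this
    exact_mod_cast this
  have h4 : (0 : ℤ) < (a : ℤ) ^ (b + 1) := by
    have := h.ha
    positivity
  have h5 : (2 : ℤ) ^ (b + 1) * sd p w ^ (b + 1) <
      2 ^ (b + 1) * ((M : ℤ) * ((8 * (8 * (N * a)) : ℕ) : ℤ) ^ b * (20 * a)) :=
    mul_lt_mul_of_pos_left (lt_of_lt_of_le hA h2) (by positivity)
  have h6 : (2 : ℤ) ^ (b + 1) * ((M : ℤ) * ((8 * (8 * (N * a)) : ℕ) : ℤ) ^ b * (20 * a)) =
      (20 * 2 ^ (b + 1) * M * (64 * N) ^ b : ℤ) * (a : ℤ) ^ (b + 1) := by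
    push_cast
    rw [show (8 * (8 * ((N : ℤ) * a))) = (64 * N) * a by ring, mul_pow (64 * (N : ℤ)) (a : ℤ) b,
      pow_succ (a : ℤ) b]
    ring
  rw [h6] at h5
  have h7 : (20 * 2 ^ (b + 1) * M * (64 * N) ^ b : ℤ) * (a : ℤ) ^ (b + 1) ≤
      (r : ℤ) ^ (b + 1) * (a : ℤ) ^ (b + 1) := mul_le_mul_of_nonneg_right h3 h4.le
  push_cast at h1
  rw [mul_pow] at h1
  linarith

/-- the constant of the chains -/
def M1 (M B N : ℕ) : ℕ := M * (64 * N) ^ (B - 1) + 2 ^ B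

theorem thick1 {M B N a : ℕ} {w c p : Vtx}
    (hA : Awy M B (8 * (N * a)) w c p) :
    sd p w ^ B ≤ (M1 M B N : ℤ) * (a : ℤ) ^ (B - 1) * (sd p c + 1) := by
  unfold Awy at hA
  have e : (M : ℤ) * ((8 * (8 * (N * a)) : ℕ) : ℤ) ^ (B - 1) =
      (M * (64 * N) ^ (B - 1) : ℤ) * (a : ℤ) ^ (B - 1) := by
    push_cast
    rw [show (8 * (8 * ((N : ℤ) * a))) = (64 * N) * a by ring, mul_pow (64 * (N : ℤ)) (a : ℤ)]
    ring
  rw [e] at hA
  have h0 := sd_nonneg p c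
  have h1 : (M * (64 * N) ^ (B - 1) : ℤ) ≤ (M1 M B N : ℤ) := by
    unfold M1
    push_cast
    have : (0 : ℤ) ≤ 2 ^ B := by positivity
    linarith
  have h2 : (0 : ℤ) ≤ (a : ℤ) ^ (B - 1) := by positivity
  calc sd p w ^ B ≤ (M * (64 * N) ^ (B - 1) : ℤ) * (a : ℤ) ^ (B - 1) * sd p c := hA.le
    _ ≤ (M1 M B N : ℤ) * (a : ℤ) ^ (B - 1) * (sd p c + 1) := by
      refine mul_le_mul (mul_le_mul_of_nonneg_right h1 h2) (by linarith) h0 ?_
      positivity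

theorem thick2 {M B N r a : ℕ} (h : Num M B N r a) {w c p : Vtx} (hp : sd p w ≤ 2) :
    sd p w ^ B ≤ (M1 M B N : ℤ) * (a : ℤ) ^ (B - 1) * (sd p c + 1) := by
  have h0 := sd_nonneg p c
  have h1 : sd p w ^ B ≤ 2 ^ B := pow_le_pow_left₀ (sd_nonneg _ _) hp _
  have h2 : (2 : ℤ) ^ B ≤ (M1 M B N : ℤ) := by
    unfold M1
    push_cast
    have : (0 : ℤ) ≤ M * (64 * N) ^ (B - 1) := by positivity
    linarith
  have ha : (1 : ℤ) ≤ a := by exact_mod_cast h.ha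
  have h3 : (1 : ℤ) ≤ (a : ℤ) ^ (B - 1) := one_le_pow₀ ha
  have h4 : (0 : ℤ) < 2 ^ B := by positivity
  calc sd p w ^ B ≤ (2 : ℤ) ^ B * 1 * 1 := by linarith
    _ ≤ (M1 M B N : ℤ) * (a : ℤ) ^ (B - 1) * (sd p c + 1) := by
      refine mul_le_mul (mul_le_mul h2 h3 (by norm_num) (by linarith)) (by linarith)
        (by norm_num) ?_
      have : (0 : ℤ) ≤ (M1 M B N : ℤ) := by linarith
      positivity

/-! ### Patterns -/

open Classical in
/-- the cells of the thick vertices far from `w` -/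
noncomputable def Zc (M B N r a : ℕ) (w : Vtx) (F : Set Edg) : Finset (ℤ × ℤ) :=
  (Finset.Icc (-(N : ℤ)) N ×ˢ Finset.Icc (-(N : ℤ)) N).filter (fun z => ∃ p : Vtx,
    ((r * a : ℕ) : ℤ) ≤ 2 * sd p w ∧
    (∀ c ∈ KC w (512 * (N * a)) w F, Awy M B (8 * (N * a)) w c p) ∧
    (z.1 * a ≤ p.1 ∧ p.1 ≤ z.1 * a + a) ∧ (z.2 * a ≤ p.2 ∧ p.2 ≤ z.2 * a + a))

/-- the pattern of `w` -/
def PatOf (M B N r a : ℕ) (Z : Finset (ℤ × ℤ)) (yh : ℤ) (w : Vtx) (F : Set Edg) : Prop :=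
  Z = Zc M B N r a w F ∧ ∃ x, sd x w = 2 ∧ ∃ y, sd y (0, 0) = (N * a : ℕ) ∧
    y.1 = -((N * a : ℕ) : ℤ) ∧ y.2 / (a : ℤ) = yh ∧
    Reach (TE' (512 * (N * a)) M B (8 * (N * a)) w F ∩ ↑(blk (0, 0) (N * a))) x y

theorem cell {a : ℕ} (ha : 1 ≤ a) (x : ℤ) : x / (a : ℤ) * a ≤ x ∧ x ≤ x / (a : ℤ) * a + a := by
  have h0 : (0 : ℤ) < a := by exact_mod_cast ha
  have h1 := Int.ediv_mul_le x h0.ne'
  have h2 := Int.lt_ediv_add_one_mul_self x h0
  refine ⟨h1, ?_⟩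
  linarith

theorem cell_bd {a N : ℕ} (ha : 1 ≤ a) {x : ℤ} (h1 : -((N * a : ℕ) : ℤ) ≤ x)
    (h2 : x ≤ ((N * a : ℕ) : ℤ)) : -(N : ℤ) ≤ x / (a : ℤ) ∧ x / (a : ℤ) ≤ N := by
  have h0 : (0 : ℤ) < a := by exact_mod_cast ha
  push_cast at h1 h2
  exact ⟨Int.le_ediv_of_mul_le h0 (by linarith), Int.ediv_le_of_le_mul h0 h2⟩

/-- the cell of a thick vertex -/
theorem mem_Zc {M B N r a : ℕ} (ha : 1 ≤ a) {w p : Vtx} {F : Set Edg}
    (hp0 : sd p (0, 0) ≤ (N * a : ℕ)) (hp : ((r * a : ℕ) : ℤ) ≤ 2 * sd p w)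
    (hA : ∀ c ∈ KC w (512 * (N * a)) w F, Awy M B (8 * (N * a)) w c p) :
    (p.1 / (a : ℤ), p.2 / (a : ℤ)) ∈ Zc M B N r a w F := by
  classical
  unfold Zc
  rw [sd_le_iff] at hp0
  simp only [sub_zero] at hp0
  rw [Finset.mem_filter, Finset.mem_product, Finset.mem_Icc, Finset.mem_Icc]
  exact ⟨⟨cell_bd ha hp0.1.1 hp0.1.2, cell_bd ha hp0.2.1 hp0.2.2⟩, p, hp, hA, cell ha p.1,
    cell ha p.2⟩

theorem rgn1_of {M B N r a : ℕ} (ha : 1 ≤ a) {w p : Vtx} {F : Set Edg}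
    (hp0 : sd p (0, 0) ≤ (N * a : ℕ)) (hp : ((r * a : ℕ) : ℤ) ≤ 2 * sd p w)
    (hA : ∀ c ∈ KC w (512 * (N * a)) w F, Awy M B (8 * (N * a)) w c p) :
    p ∈ rgn (Zc M B N r a w F) a 1 := by
  refine ⟨_, mem_Zc ha hp0 hp hA, ?_⟩
  have h1 := cell ha p.1
  have h2 := cell ha p.2
  rw [abs_le, abs_le]
  push_cast
  constructor <;> constructor <;> linarith

/-- the big cluster keeps away from the cells -/
theorem avoid {M B N r a : ℕ} (h : Num M B N r a) {w x : Vtx} {F : Set Edg}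
    (hx : x ∈ KC w (512 * (N * a)) w F) : x ∉ rgn (Zc M B N r a w F) a 16 := by
  classical
  rintro ⟨z, hz, h1, h2⟩
  unfold Zc at hz
  rw [Finset.mem_filter] at hz
  obtain ⟨-, p, hp, hA, h3, h4⟩ := hz
  have h5 := far h hp (hA x hx)
  rw [abs_le] at h1 h2
  have h6 : sd p x ≤ 17 * (a : ℤ) := by
    rw [sd_le_iff]
    push_cast at h1 h2
    constructor <;> constructor <;> linarith
  have ha : (1 : ℤ) ≤ a := by exact_mod_cast h.ha
  linarith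

/-! ### The good cluster -/

/-- the endpoints of the configuration and `w` -/
theorem reach_mem {F : Finset Edg} {G : Set Edg} (hG : G ⊆ ↑F) {w x : Vtx} (h : Reach G w x) :
    x ∈ insert w (F.image src ∪ F.image tgt) := by
  induction h with
  | refl => exact Finset.mem_insert_self _ _
  | @tail b c _ hs _ =>
    obtain ⟨e, he, h1⟩ := hs
    apply Finset.mem_insert_of_mem
    have heF : e ∈ F := Finset.mem_coe.1 (hG he)
    rw [Finset.mem_union]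
    rcases h1 with ⟨-, h2⟩ | ⟨h2, -⟩
    · right; rw [← h2]; exact Finset.mem_image_of_mem _ heF
    · left; rw [← h2]; exact Finset.mem_image_of_mem _ heF

/-- a thick path gives a chain -/
theorem chain {M B N r a : ℕ} (h : Num M B N r a) {w : Vtx} {F : Set Edg} {Z : Finset (ℤ × ℤ)}
    {yh : ℤ} {C : Finset Vtx} (hw : sd w (0, 0) ≤ (r * a : ℕ)) (hP : PatOf M B N r a Z yh w F)
    (hC : ∀ c ∈ C, c ∈ KC w (512 * (N * a)) w F) :
    Chn (M1 M B N) B N r a Z yh C w ∧ (-(N : ℤ), yh) ∈ Z ∧ -(N : ℤ) ≤ yh ∧ yh ≤ N := by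
  obtain ⟨hZ, x, hx, y, hy, hy1, hy2, hr⟩ := hP
  have ha := h.ha
  have hraN : 64 * (r * a) ≤ N * a := by
    rw [← mul_assoc]
    exact Nat.mul_le_mul_right _ h.hN
  have hra : 8 ≤ r * a := by
    have := Nat.mul_le_mul h.hr ha
    omega
  generalize hR : r * a = R at hraN hra hw
  -- vertices near `w`
  have hnear : ∀ p, sd p w ≤ 2 → p ∈ Ky (M1 M B N) B r a Z C w := by
    intro p hp
    refine ⟨Or.inl ?_, fun c _ => thick2 h hp⟩
    have h1 := sd_tri p w (0, 0)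
    rw [mul_assoc, hR]
    omega
  -- vertices of the thick path
  have hthick : ∀ p, sd p (0, 0) ≤ (N * a : ℕ) →
      (∀ c ∈ KC w (512 * (N * a)) w F, Awy M B (8 * (N * a)) w c p) →
      p ∈ Ky (M1 M B N) B r a Z C w := by
    intro p hp0 hA
    refine ⟨?_, fun c hc => thick1 (hA c (hC c hc))⟩
    by_cases h1 : ((r * a : ℕ) : ℤ) ≤ 2 * sd p w
    · right
      rw [hZ]
      exact rgn1_of ha hp0 h1 hA
    · left
      have h2 := sd_tri p w (0, 0)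
      rw [hR] at h1
      rw [mul_assoc, hR]
      omega
  obtain ⟨Pp, hPp⟩ : ∃ Pp : Vtx → Prop, Pp = (fun p : Vtx => sd p (0, 0) ≤ (N * a : ℕ) ∧
        ∀ c ∈ KC w (512 * (N * a)) w F, Awy M B (8 * (N * a)) w c p) := ⟨_, rfl⟩
  have hG : ∀ e ∈ TE' (512 * (N * a)) M B (8 * (N * a)) w F ∩ ↑(blk (0, 0) (N * a)),
      Pp (src e) ∧ Pp (tgt e) := by
    rintro e ⟨⟨h1, h2⟩, h3⟩
    have h4 := mem_blk.1 (Finset.mem_coe.1 h3)
    rw [hPp]
    exact ⟨⟨h4.1, h1⟩, h4.2, h2⟩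
  -- the chain to `x`
  have hcx : Relation.ReflTransGen
      (fun x y => y ∈ Ky (M1 M B N) B r a Z C w ∧ sd x y ≤ 1) w x := by
    have h1 := sd_le_iff.1 hx.le
    refine Relation.ReflTransGen.head (b := ((w.1 + x.1) / 2, (w.2 + x.2) / 2)) ⟨hnear _ ?_, ?_⟩
      (Relation.ReflTransGen.single ⟨hnear _ hx.le, ?_⟩)
    · rw [sd_le_iff]; simp only; omega
    · rw [sd_le_iff]; simp only; omega
    · rw [sd_le_iff]; simp only; omega
  have hpath : ∀ b, Reach (TE' (512 * (N * a)) M B (8 * (N * a)) w F ∩ ↑(blk (0, 0) (N * a))) x b →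
      Relation.ReflTransGen
        (fun x y => y ∈ Ky (M1 M B N) B r a Z C w ∧ sd x y ≤ 1) w b := by
    intro b hb
    induction hb with
    | refl => exact hcx
    | @tail b c _ hs ih =>
      have h1 := (adj_edge hs hG).2
      rw [hPp] at h1
      exact ih.tail ⟨hthick c h1.1 h1.2, adj_sd hs⟩
  have hyc := cell ha y.2
  rw [hy2] at hyc
  have hya : sd y (0, 0) ≤ (N * a : ℕ) ∧
      ∀ c ∈ KC w (512 * (N * a)) w F, Awy M B (8 * (N * a)) w c y := by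
    rcases Relation.ReflTransGen.cases_tail hr with h1 | ⟨b, -, hs⟩
    · exfalso
      rw [h1] at hy
      have h2 := sd_tri x w (0, 0)
      omega
    · have h1 := (adj_edge hs hG).2
      rw [hPp] at h1
      exact h1
  have hyb := sd_le_iff.1 hya.1
  simp only [sub_zero] at hyb
  refine ⟨⟨y, ⟨_, Finset.mem_singleton_self _, ?_⟩, hpath y hr⟩, ?_, ?_⟩
  · rw [abs_le, abs_le, hy1]
    push_cast
    constructor <;> constructor <;> linarith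
  · have h1 : ((r * a : ℕ) : ℤ) ≤ 2 * sd y w := by
      have h2 := sd_tri y w (0, 0)
      rw [hR]
      omega
    have h2 := mem_Zc ha hya.1 h1 hya.2
    rw [← hZ, hy2, hy1] at h2
    have h3 : -((N * a : ℕ) : ℤ) / (a : ℤ) = -(N : ℤ) := by
      push_cast
      rw [← neg_mul]
      exact Int.mul_ediv_cancel _ (by omega)
    rwa [h3] at h2
  · rw [← hy2]
    exact cell_bd ha hyb.2.1 hyb.2.2

/-- **The deterministic part.** -/
theorem det {M B N r a : ℕ} (h : Num M B N r a) {F : Finset Edg} {Z : Finset (ℤ × ℤ)} {yh : ℤ}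
    {V : Finset Vtx} (hne : V.Nonempty) {c0 E0 t : ℝ}
    (hV : ∀ w ∈ V, w ∈ core (r * a) ∧ Ev (512 * (N * a)) M B (8 * (N * a)) (N * a) (r * a)
      (Lft (N * a)) w ↑F ∧ PatOf M B N r a Z yh w ↑F)
    (hcard : c0 * (a : ℝ) ^ (4 / 3 : ℝ) ≤ (V.card : ℝ))
    (hen : En t V ≤ E0 * (a : ℝ) ^ (8 / 3 - t)) :
    Bev (M1 M B N) B N r c0 E0 t a Z yh F := by
  classical
  have ha := h.ha
  have hraN : 64 * (r * a) ≤ N * a := by
    rw [← mul_assoc]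
    exact Nat.mul_le_mul_right _ h.hN
  have hra : 8 ≤ r * a := by
    have := Nat.mul_le_mul h.hr ha
    omega
  obtain ⟨w0, hw0⟩ := hne
  obtain ⟨hc0, hE0, hP0⟩ := hV w0 hw0
  have hw00 := mem_core.1 hc0
  -- the cluster
  set C : Finset Vtx := (insert w0 (F.image src ∪ F.image tgt)).filter
    (fun x => Reach ((↑F : Set Edg) ∩ ↑(TE N a)) w0 x) with hCdef
  have hC : ∀ x, x ∈ C ↔ Reach ((↑F : Set Edg) ∩ ↑(TE N a)) w0 x := by
    intro x
    rw [hCdef, Finset.mem_filter]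
    exact ⟨fun h => h.2, fun h => ⟨reach_mem Set.inter_subset_left h, h⟩⟩
  clear_value C
  -- linear forms
  obtain ⟨n, hn⟩ : ∃ n : ℕ, n = N * a := ⟨_, rfl⟩
  obtain ⟨R, hR⟩ : ∃ R : ℕ, R = r * a := ⟨_, rfl⟩
  obtain ⟨P, hP⟩ : ∃ P : ℕ, P = (N + 10) * a := ⟨_, rfl⟩
  obtain ⟨Q, hQ⟩ : ∃ Q : ℕ, Q = (2 * N + 10) * a := ⟨_, rfl⟩
  have hTE : TE N a = RE (-(n : ℤ)) n (-((2 * n : ℕ) : ℤ)) (2 * n : ℕ) := by
    unfold TE
    rw [mul_assoc 2 N a, ← hn]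
  have hTP : V5helper99.OB.TP N a = RE (-(P : ℤ)) P (-(Q : ℤ)) Q := by
    rw [hP, hQ]; rfl
  have e1 : P = n + 10 * a := by rw [hP, hn]; ring
  have e2 : Q = 2 * n + 10 * a := by rw [hQ, hn]; ring
  have e3 : 512 * a ≤ n := by
    rw [hn]
    exact Nat.mul_le_mul_right _ (by have := h.hN; have := h.hr; omega)
  have e4 : 8 * r * a = 8 * R := by rw [hR]; ring
  rw [← hn, ← hR] at hraN
  rw [← hR] at hra hw00 hc0
  rw [← hn, ← hR] at hE0
  -- inclusions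
  have hQT : blk (0, 0) n ⊆ TE N a := by
    intro e he
    rw [hTE, mem_re]
    have h1 := mem_blk.1 he
    rw [sd_le_iff, sd_le_iff] at h1
    simp only [sub_zero] at h1
    simp only [abs_le]
    push_cast at h1 ⊢
    omega
  have hTm : ∀ w, sd w (0, 0) ≤ R → TE N a ⊆ blk w (512 * n) := by
    intro w hw e he
    rw [hTE, mem_re] at he
    simp only [abs_le] at he
    have h1 := sd_le_iff.1 hw
    simp only [sub_zero] at h1
    rw [mem_blk, sd_le_iff, sd_le_iff]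
    push_cast at he h1 ⊢
    omega
  have hKC : ∀ x, x ∈ KC (0, 0) n w0 (↑F : Set Edg) → x ∈ C := fun x hx =>
    (hC x).2 (Reach.mono (Set.inter_subset_inter_right _ (Finset.coe_subset.2 hQT)) hx)
  have hVC : ∀ w ∈ V, w ∈ C := by
    intro w hw
    obtain ⟨h1, h2, -⟩ := hV w hw
    have h1' := mem_core.1 h1
    rw [← hR] at h1'
    rw [← hn, ← hR] at h2
    apply hKC
    obtain ⟨y, hy, hyK⟩ := h2.1
    have h3 := sd_tri y (0, 0) w
    rw [sd_comm (0, 0) w] at h3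
    obtain ⟨y', hy', hr'⟩ := firstX' (k := n) (c := (0, 0)) (by omega) (by push_cast at hy; omega) hyK
    refine hE0.2.2 w (by push_cast; omega) y' hy' (Reach.mono ?_ hr')
    rintro e ⟨⟨h4, -⟩, h5⟩
    exact ⟨h4, h5⟩
  have hCK : ∀ w ∈ V, ∀ c ∈ C, c ∈ KC w (512 * (N * a)) w (↑F : Set Edg) := by
    intro w hw c hc
    have h1 := mem_core.1 (hV w hw).1
    rw [← hR] at h1
    rw [← hn]
    have h2 := (((hC w).1 (hVC w hw)).symm).trans ((hC c).1 hc)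
    exact Reach.mono (Set.inter_subset_inter_right _ (Finset.coe_subset.2 (hTm w h1))) h2
  have hch : ∀ w ∈ V, Chn (M1 M B N) B N r a Z yh C w ∧ (-(N : ℤ), yh) ∈ Z ∧
      -(N : ℤ) ≤ yh ∧ yh ≤ N := fun w hw =>
    chain h (mem_core.1 (hV w hw).1) (hV w hw).2.2 (hCK w hw)
  have hmth : (-(N : ℤ), yh) ∈ Z := (hch w0 hw0).2.1
  have hZ0 : Z = Zc M B N r a w0 ↑F := hP0.1
  have hav : ∀ x, x ∈ KC w0 (512 * n) w0 (↑F : Set Edg) → x ∉ rgn Z a 16 := by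
    intro x hx
    rw [hn] at hx
    rw [hZ0]
    exact avoid h hx
  refine ⟨C, ⟨w0, hVC w0 hw0, hC⟩, ⟨?_, V, hVC, hcard, hen, ?_⟩, ?_⟩
  · intro x hx
    apply hav
    have := hCK w0 hw0 x hx
    rwa [← hn] at this
  · intro w hw
    exact ⟨mem_core.1 (hV w hw).1, (hch w hw).1⟩
  -- the escape
  obtain ⟨y, hy, hyK⟩ := hE0.1
  set D : Set Vtx := KC w0 (512 * n) w0 (↑F : Set Edg) with hD
  have hyD : (n : ℤ) ≤ sd y (0, 0) ∧ (Q : ℤ) < sd y (0, 0) := by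
    have h3 := sd_tri y (0, 0) w0
    rw [sd_comm (0, 0) w0] at h3
    push_cast at hy
    omega
  have hfar : ∀ x, x ∈ D → x ∉ C → (8 * R : ℤ) < sd x (0, 0) := by
    intro x hx hxC
    by_contra hcon
    push Not at hcon
    apply hxC
    apply hKC
    have h1 : Reach ((↑F : Set Edg) ∩ ↑(blk w0 (512 * n))) x y :=
      (Reach.symm hx).trans hyK
    obtain ⟨y', hy', hr'⟩ := firstX' (k := n) (c := (0, 0)) (by omega) hyD.1 h1
    refine hE0.2.2 x (by push_cast; omega) y' hy' (Reach.mono ?_ hr')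
    rintro e ⟨⟨h4, -⟩, h5⟩
    exact ⟨h4, h5⟩
  -- the path to the boundary of `T⁺`
  have hw0' := sd_le_iff.1 hw00
  simp only [sub_zero] at hw0'
  rcases firstR (P := P) (Q := Q) (by simp only [abs_le]; omega) hyK with h1 | ⟨y', hy', hr'⟩
  · exfalso
    obtain ⟨⟨h2, h3⟩, -⟩ := h1
    rw [abs_le] at h2 h3
    have h4 : sd y (0, 0) ≤ Q := by
      rw [sd_le_iff]
      simp only [sub_zero]
      omega
    omega
  have hcl1 : ∀ e ∈ ((↑F : Set Edg) ∩ ↑(blk w0 (512 * n))) ∩ ↑(RE (-(P : ℤ)) P (-(Q : ℤ)) Q),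
      (src e ∈ D ↔ tgt e ∈ D) := by
    rintro e ⟨he, -⟩
    have h1 : Adj ((↑F : Set Edg) ∩ ↑(blk w0 (512 * n))) (src e) (tgt e) :=
      ⟨e, he, Or.inl ⟨rfl, rfl⟩⟩
    exact ⟨fun h => Reach.trans (F := (↑F : Set Edg) ∩ ↑(blk w0 (512 * n))) h h1.reach,
      fun h => Reach.trans (F := (↑F : Set Edg) ∩ ↑(blk w0 (512 * n))) h h1.symm.reach⟩
  have hD0 : w0 ∈ D := Reach.refl _ _
  have h2 := (inD hD0 hcl1 hr').1
  obtain ⟨c, hc, hcr⟩ := lastC (T := (↑(TE N a) : Set Edg)) (C := (↑C : Set Vtx)) (by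
    rintro e ⟨⟨⟨he, -⟩, -⟩, -⟩ heT
    have h1 : Adj ((↑F : Set Edg) ∩ ↑(TE N a)) (src e) (tgt e) :=
      ⟨e, ⟨he, heT⟩, Or.inl ⟨rfl, rfl⟩⟩
    rw [Finset.mem_coe, Finset.mem_coe, hC, hC]
    exact ⟨fun h => h.trans h1.reach, fun h => h.trans h1.symm.reach⟩)
    (Finset.mem_coe.2 (hVC w0 hw0)) h2
  refine ⟨c, Finset.mem_coe.1 hc, y', ?_, hcr.mono ?_⟩
  · rw [← hP, ← hQ]
    exact hy'
  rintro e ⟨⟨⟨⟨heF, -⟩, heP⟩, heD1, heD2⟩, heT⟩
  have key : ∀ x, x ∈ D → (x ∉ C ∨ (8 * R : ℤ) < sd x (0, 0)) → x ∉ WS N r a Z yh := by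
    intro x hx hx2 hW
    rcases hW with hW | hW | hW
    · apply hav x hx
      obtain ⟨z, hz, h3, h4⟩ := hW
      refine ⟨z, hz, h3.trans ?_, h4.trans ?_⟩ <;> push_cast <;> omega
    · apply hav x hx
      refine ⟨_, hmth, ?_, hW.2⟩
      have h3 := hW.1
      rw [← hn] at h3
      have h4 : x.1 - -(N : ℤ) * a = x.1 + (n : ℤ) := by
        rw [hn]; push_cast; ring
      rw [h4]
      exact h3
    · rw [e4] at hW
      push_cast at hW
      rcases hx2 with h3 | h3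
      · have := hfar x hx h3
        omega
      · omega
  have hTend : e ∉ TE N a → (8 * R : ℤ) < sd (src e) (0, 0) ∧ (8 * R : ℤ) < sd (tgt e) (0, 0) := by
    intro heN
    have h3 : sd (src e) (tgt e) ≤ 1 :=
      adj_sd (G := Set.univ) ⟨e, trivial, Or.inl ⟨rfl, rfl⟩⟩
    have h4 := sd_tri (src e) (tgt e) (0, 0)
    have h5 := sd_tri (tgt e) (src e) (0, 0)
    rw [sd_comm (tgt e) (src e)] at h5
    have h6 : ¬ (sd (src e) (0, 0) ≤ n ∧ sd (tgt e) (0, 0) ≤ n) := by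
      rintro ⟨h7, h8⟩
      exact heN (hQT (mem_blk.2 ⟨h7, h8⟩))
    omega
  refine ⟨heF, ?_, ?_, ?_, ?_⟩
  · rw [hTP]
    exact Finset.mem_coe.1 heP
  · intro h3
    unfold tE at h3
    rw [Finset.mem_filter] at h3
    rcases heT with h4 | h4
    · exact h4 (Finset.mem_coe.2 h3.1)
    · rcases h3.2 with h5 | h5
      · exact h4.1 (Finset.mem_coe.2 h5)
      · exact h4.2 (Finset.mem_coe.2 h5)
  · apply key _ heD1
    rcases heT with h4 | h4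
    · exact Or.inr (hTend fun h => h4 (Finset.mem_coe.2 h)).1
    · exact Or.inl fun h => h4.1 (Finset.mem_coe.2 h)
  · apply key _ heD2
    rcases heT with h4 | h4
    · exact Or.inr (hTend fun h => h4 (Finset.mem_coe.2 h)).2
    · exact Or.inl fun h => h4.2 (Finset.mem_coe.2 h)

end Pool.Agent.V5helper72.OB
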