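import Pool.Agent.V5helper72.OB.Bas
import Pool.Agent.Y989.FR.Stm

/-!
# Box event: the one-point events (helper72, JOB BOX of helper99)
-/

set_option autoImplicit false

namespace Pool.Agent.V5helper72.OB

open H974 H12S Finset H984P H984N
open Pool.Agent.Y989.FR (AE Clu A3v Awy Acc TkA cl S_ACC S_THK)

/-- open arm -/
def Arm (m : ℕ) (w : Vtx) (F : Set Edg) : Prop := ∃ y, sd y w = m ∧ y ∈ KC w m w F

/-- open arm and thick path to the distance `k` -/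
def TW (m M B k : ℕ) (w : Vtx) (F : Set Edg) : Prop :=
  Arm m w F ∧ ∃ x, sd x w = 2 ∧ ∃ y, sd y w = k ∧ Reach (TE' m M B k w F) x y

/-- thick path from near `w` to a point of the boundary of the box of radius `n` with the
property `σ` -/
def TQ (m M B k n : ℕ) (σ : Vtx → Prop) (w : Vtx) (F : Set Edg) : Prop :=
  ∃ x, sd x w = 2 ∧ ∃ y, sd y (0, 0) = n ∧ σ y ∧
    Reach (TE' m M B k w F ∩ ↑(blk (0, 0) n)) x y

/-- no second crossing -/
def NoS (n R : ℕ) (w : Vtx) (F : Set Edg) : Prop :=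
  ∀ x, sd x (0, 0) ≤ (9 * R : ℕ) → ∀ y, sd y (0, 0) = n → y ∈ KC (0, 0) n x F →
    x ∈ KC (0, 0) n w F

/-- The event at `w`. -/
def Ev (m M B k n R : ℕ) (σ : Vtx → Prop) (w : Vtx) (F : Set Edg) : Prop :=
  Arm m w F ∧ TQ m M B k n σ w F ∧ NoS n R w F

/-! ### Symmetries -/

theorem Arm_iso {g : LSym} (h : Iso g) {m : ℕ} {w : Vtx} {F : Set Edg} (hA : Arm m w F) :
    Arm m (g.ψ w) (g.φ '' F) := by
  obtain ⟨y, hy, hK⟩ := hA
  exact ⟨g.ψ y, by rw [h.dist]; exact hy, h.KC.2 hK⟩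

theorem TW_iso {g : LSym} (h : Iso g) {m M B k : ℕ} {w : Vtx} {F : Set Edg}
    (hT : TW m M B k w F) : TW m M B k (g.ψ w) (g.φ '' F) := by
  obtain ⟨hA, x, hx, y, hy, hr⟩ := hT
  refine ⟨Arm_iso h hA, g.ψ x, by rw [h.dist]; exact hx, g.ψ y, by rw [h.dist]; exact hy,
    (g.reach hr).mono ?_⟩
  rintro _ ⟨e, he, rfl⟩
  exact h.TE' he

theorem TQ_iso {g : LSym} (h : Iso g) (h0 : g.ψ (0, 0) = (0, 0)) {m M B k n : ℕ}
    {σ σ' : Vtx → Prop} (hσ : ∀ y, σ y → σ' (g.ψ y)) {w : Vtx} {F : Set Edg}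
    (hT : TQ m M B k n σ w F) : TQ m M B k n σ' (g.ψ w) (g.φ '' F) := by
  obtain ⟨x, hx, y, hy, hs, hr⟩ := hT
  refine ⟨g.ψ x, by rw [h.dist]; exact hx, g.ψ y, ?_, hσ y hs, (g.reach hr).mono ?_⟩
  · have := h.dist y (0, 0)
    rw [h0] at this
    rw [this]
    exact hy
  · rintro _ ⟨e, ⟨he1, he2⟩, rfl⟩
    refine ⟨h.TE' he1, ?_⟩
    have := (h.blk (e := e) (c := (0, 0)) (n := n)).2 (Finset.mem_coe.1 he2)
    rw [h0] at this
    exact Finset.mem_coe.2 this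

theorem NoS_iso {g : LSym} (h : Iso g) (h0 : g.ψ (0, 0) = (0, 0)) {n R : ℕ} {w : Vtx}
    {F : Set Edg} (hN : NoS n R w F) : NoS n R (g.ψ w) (g.φ '' F) := by
  intro x hx y hy hxy
  obtain ⟨x, rfl⟩ := g.ψ.surjective x
  obtain ⟨y, rfl⟩ := g.ψ.surjective y
  have e1 := h.dist x (0, 0)
  have e2 := h.dist y (0, 0)
  rw [h0] at e1 e2
  rw [e1] at hx
  rw [e2] at hy
  have e3 := h.KC (c := (0, 0)) (v := x) (x := y) (m := n) (F := F)
  have e4 := h.KC (c := (0, 0)) (v := w) (x := x) (m := n) (F := F)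
  rw [h0] at e3 e4
  exact e4.2 (hN x hx y hy (e3.1 hxy))

theorem Ev_iso {g : LSym} (h : Iso g) (h0 : g.ψ (0, 0) = (0, 0)) {m M B k n R : ℕ}
    {σ σ' : Vtx → Prop} (hσ : ∀ y, σ y → σ' (g.ψ y)) {w : Vtx} {F : Set Edg}
    (hE : Ev m M B k n R σ w F) : Ev m M B k n R σ' (g.ψ w) (g.φ '' F) :=
  ⟨Arm_iso h hE.1, TQ_iso h h0 hσ hE.2.1, NoS_iso h h0 hE.2.2⟩

theorem Ev_pr {g : LSym} (h : Iso g) (h0 : g.ψ (0, 0) = (0, 0)) {m M B k n R L : ℕ}
    {σ σ' : Vtx → Prop} (hσ : ∀ y, σ y → σ' (g.ψ y)) (w : Vtx) :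
    PQ (1 / 2) (blk (0, 0) L) (fun F => Ev m M B k n R σ w ↑F) ≤
      PQ (1 / 2) (blk (0, 0) L) (fun F => Ev m M B k n R σ' (g.ψ w) ↑F) := by
  have h1 : PQ (1 / 2) (blk (0, 0) L) (fun F => Ev m M B k n R σ' (g.ψ w) ↑F) =
      Pr (fun _ => (1 / 2 : ℝ)) (blk (0, 0) L)
        (fun F => Ev m M B k n R σ' (g.ψ w) ↑(g.mp F)) := by
    have h2 := h.mp_blk (0, 0) L
    rw [h0] at h2
    conv_lhs => rw [← h2]
    exact g.pr (1 / 2) (blk (0, 0) L) (fun F => Ev m M B k n R σ' (g.ψ w) ↑F)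
  rw [h1]
  refine Pr_mono okh fun F _ hF => ?_
  rw [LSym.coe_mp]
  exact Ev_iso h h0 hσ hF

theorem iso_trl (s t : ℤ) : Iso (trl s t) := by
  refine ⟨?_⟩
  rintro ⟨a, b⟩ ⟨c, d⟩
  simp [sd]

theorem iso_tps : Iso tps := by
  refine ⟨?_⟩
  rintro ⟨a, b⟩ ⟨c, d⟩
  simp [sd, max_comm]

theorem iso_rfx : Iso (rfx 0) := by
  refine ⟨?_⟩
  rintro ⟨a, b⟩ ⟨c, d⟩
  show max |0 - a - (0 - c)| |b - d| = max |a - c| |b - d|
  rw [show 0 - a - (0 - c) = -(a - c) by ring, abs_neg]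

theorem iso_rfy : Iso (rfy 0) := by
  refine ⟨?_⟩
  rintro ⟨a, b⟩ ⟨c, d⟩
  show max |a - c| |0 - b - (0 - d)| = max |a - c| |b - d|
  rw [show 0 - b - (0 - d) = -(b - d) by ring, abs_neg]

/-! ### One-point lower bound for `TW` -/

theorem boxE_eq (m : ℕ) : boxE m = blk (0, 0) m := by
  unfold boxE blk
  simp only [zero_sub, zero_add]

theorem cl_eq_KC (m : ℕ) (F : Set Edg) : cl m F = KC (0, 0) m (0, 0) F := by
  unfold cl KC
  rw [boxE_eq]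

theorem TW_of {m M B k : ℕ} {F : Set Edg} (hA : Acc m F) (hT : TkA M B k m F) :
    TW m M B k (0, 0) F := by
  obtain ⟨⟨w, hw, hwc⟩, -, -⟩ := hA
  obtain ⟨x, hx, y, hy, hr⟩ := hT
  rw [cl_eq_KC] at hwc
  refine ⟨⟨w, mem_bdB.1 hw, hwc⟩, x, mem_bdB.1 hx, y, mem_bdB.1 hy, hr.mono ?_⟩
  rintro e ⟨-, h1, h2⟩
  rw [cl_eq_KC] at h1 h2
  exact ⟨h1, h2⟩

theorem TW_local {m M B k : ℕ} {w : Vtx} {S : Finset Edg} (hS : blk w m ⊆ S) (F : Finset Edg) :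
    TW m M B k w ↑F ↔ TW m M B k w (↑(F ∩ S) : Set Edg) := by
  have h := KC_local (v := w) hS F
  unfold TW Arm TE'
  rw [h]

theorem TW_trans {m M B k : ℕ} (w : Vtx) {S : Finset Edg} (hS : blk w m ⊆ S) :
    PQ (1 / 2) (boxE m) (fun F => TW m M B k (0, 0) ↑F) ≤
      PQ (1 / 2) S (fun F => TW m M B k w ↑F) := by
  have h1 : PQ (1 / 2) S (fun F => TW m M B k w ↑F) =
      PQ (1 / 2) (blk w m) (fun F => TW m M B k w ↑F) :=
    Pr_local hS fun F _ => TW_local (Finset.Subset.refl _) F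
  have h0 : (trl w.1 w.2).ψ (0, 0) = w := by
    obtain ⟨a, b⟩ := w
    simp
  have h2 : PQ (1 / 2) (blk w m) (fun F => TW m M B k w ↑F) =
      Pr (fun _ => (1 / 2 : ℝ)) (blk (0, 0) m)
        (fun F => TW m M B k w ↑((trl w.1 w.2).mp F)) := by
    have h3 := (iso_trl w.1 w.2).mp_blk (0, 0) m
    rw [h0] at h3
    conv_lhs => rw [← h3]
    exact (trl w.1 w.2).pr (1 / 2) (blk (0, 0) m) (fun F => TW m M B k w ↑F)
  rw [h1, h2, boxE_eq]
  refine Pr_mono okh fun F _ hF => ?_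
  rw [LSym.coe_mp]
  have h4 := TW_iso (iso_trl w.1 w.2) hF
  rw [h0] at h4
  exact h4

theorem TW_TQ {m M B k n R : ℕ} {w : Vtx} {F : Set Edg} (hw : sd w (0, 0) ≤ R)
    (hn : R + 2 ≤ n) (hk : n + R ≤ k) (h : TW m M B k w F) :
    TQ m M B k n (fun _ => True) w F := by
  obtain ⟨-, x, hx, y, hy, hr⟩ := h
  have h1 := sd_tri x w (0, 0)
  have h2 := sd_tri y (0, 0) w
  rw [sd_comm (0, 0) w] at h2
  obtain ⟨z, hz, hzr⟩ := firstX' (k := n) (c := (0, 0)) (by omega) (by omega) hr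
  exact ⟨x, hx, z, hz, trivial, hzr⟩

theorem one_TW (hA : S_ACC) (hT : S_THK) : ∃ (M B m0 : ℕ) (c : ℝ), 1 ≤ M ∧ 1 ≤ B ∧ 1 ≤ m0 ∧
    0 < c ∧ ∀ m : ℕ, m0 ≤ m → ∀ (w : Vtx) (S : Finset Edg), blk w m ⊆ S →
      c * (m : ℝ) ^ (-(2 / 3 : ℝ)) ≤ PQ (1 / 2) S (fun F => TW m M B (m / 64) w ↑F) := by
  obtain ⟨c, hc, hACC⟩ := hA
  obtain ⟨M, B, m0, hM, hB, hTHK⟩ := hT (c / 2) (by positivity)
  refine ⟨M, B, max m0 1, c / 2, by omega, hB, le_max_right _ _, by positivity, ?_⟩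
  intro m hm w S hS
  have hm1 : 1 ≤ m := (le_max_right _ _).trans hm
  have h1 := hACC m hm1
  have h2 := hTHK m ((le_max_left _ _).trans hm)
  refine le_trans ?_ (TW_trans w hS)
  have h3 : PQ (1 / 2) (boxE m) (fun F => Acc m ↑F) ≤
      PQ (1 / 2) (boxE m) (fun F => TW m M B (m / 64) (0, 0) ↑F) +
      PQ (1 / 2) (boxE m) (fun F => Acc m ↑F ∧ ¬ TkA M B (m / 64) m ↑F) := by
    refine le_trans (Pr_mono okh ?_) (Pr_or_le okh _ _ _)
    intro F _ hF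
    by_cases h : TkA M B (m / 64) m ↑F
    · exact Or.inl (TW_of hF h)
    · exact Or.inr ⟨hF, h⟩
  linarith

/-! ### No second crossing -/

open Classical in
/-- the edges of the box with an end in the cluster of `w` -/
noncomputable def KK (n : ℕ) (w : Vtx) (F : Finset Edg) : Finset Edg :=
  (blk (0, 0) n).filter (fun e => src e ∈ KC (0, 0) n w (↑F : Set Edg) ∨
    tgt e ∈ KC (0, 0) n w (↑F : Set Edg))

theorem mem_KK {n : ℕ} {w : Vtx} {F : Finset Edg} {e : Edg} :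
    e ∈ KK n w F ↔ e ∈ blk (0, 0) n ∧ (src e ∈ KC (0, 0) n w (↑F : Set Edg) ∨
      tgt e ∈ KC (0, 0) n w (↑F : Set Edg)) := by
  classical
  unfold KK
  rw [Finset.mem_filter]

theorem KC_one {n : ℕ} {w : Vtx} {F F' : Finset Edg} (h : F ∩ KK n w F = F' ∩ KK n w F) :
    KC (0, 0) n w (↑F' : Set Edg) = KC (0, 0) n w (↑F : Set Edg) := by
  apply Set.Subset.antisymm
  · intro x hx
    have hx' : Reach ((↑F' : Set Edg) ∩ ↑(blk (0, 0) n)) w x := hx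
    clear hx
    induction hx' with
    | refl => exact Reach.refl _ _
    | @tail b c hb hs ih =>
      obtain ⟨e, he, hc⟩ := hs
      have ih' : b ∈ KC (0, 0) n w (↑F : Set Edg) := ih
      have heK : e ∈ KK n w F := by
        rw [mem_KK]
        refine ⟨Finset.mem_coe.1 he.2, ?_⟩
        rcases hc with ⟨h1, h2⟩ | ⟨h1, h2⟩
        · left; rw [h1]; exact ih'
        · right; rw [h2]; exact ih'
      have heF : e ∈ F ∩ KK n w F := by
        rw [h]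
        exact Finset.mem_inter.2 ⟨Finset.mem_coe.1 he.1, heK⟩
      have h3 : Reach ((↑F : Set Edg) ∩ ↑(blk (0, 0) n)) b c :=
        Adj.reach ⟨e, ⟨Finset.mem_coe.2 (Finset.mem_inter.1 heF).1, he.2⟩, hc⟩
      exact Reach.trans (F := (↑F : Set Edg) ∩ ↑(blk (0, 0) n)) ih h3
  · intro x hx
    have hx' : Reach ((↑F : Set Edg) ∩ ↑(blk (0, 0) n)) w x := hx
    clear hx
    show Reach ((↑F' : Set Edg) ∩ ↑(blk (0, 0) n)) w x
    induction hx' with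
    | refl => exact Reach.refl _ _
    | @tail b c hb hs ih =>
      obtain ⟨e, he, hc⟩ := hs
      have hb' : b ∈ KC (0, 0) n w (↑F : Set Edg) := hb
      have heK : e ∈ KK n w F := by
        rw [mem_KK]
        refine ⟨Finset.mem_coe.1 he.2, ?_⟩
        rcases hc with ⟨h1, h2⟩ | ⟨h1, h2⟩
        · left; rw [h1]; exact hb'
        · right; rw [h2]; exact hb'
      have heF : e ∈ F' ∩ KK n w F := by
        rw [← h]
        exact Finset.mem_inter.2 ⟨Finset.mem_coe.1 he.1, heK⟩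
      exact ih.trans (Adj.reach ⟨e, ⟨Finset.mem_coe.2 (Finset.mem_inter.1 heF).1, he.2⟩, hc⟩)

theorem stop (n : ℕ) (w : Vtx) (S : Finset Edg) : Stop S (KK n w) := by
  intro F F' _ _ h
  have h1 := KC_one h
  unfold KK
  rw [h1]

/-- a path which starts outside of the cluster avoids it -/
theorem off {n : ℕ} {w a b : Vtx} {F : Finset Edg} (ha : a ∉ KC (0, 0) n w (↑F : Set Edg))
    (hab : b ∈ KC (0, 0) n a (↑F : Set Edg)) :
    Reach (↑(F \ KK n w F) : Set Edg) a b ∧ b ∉ KC (0, 0) n w (↑F : Set Edg) := by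
  have hab' : Reach ((↑F : Set Edg) ∩ ↑(blk (0, 0) n)) a b := hab
  clear hab
  induction hab' with
  | refl => exact ⟨Reach.refl _ _, ha⟩
  | @tail b c hb hs ih =>
    obtain ⟨h1, h2⟩ := ih
    have hc' : c ∉ KC (0, 0) n w (↑F : Set Edg) := by
      intro hcc
      apply h2
      exact Reach.trans (F := (↑F : Set Edg) ∩ ↑(blk (0, 0) n)) hcc hs.symm.reach
    obtain ⟨e, he, hc⟩ := hs
    refine ⟨h1.trans (Adj.reach ⟨e, ?_, hc⟩), hc'⟩
    rw [Finset.mem_coe, Finset.mem_sdiff, mem_KK]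
    refine ⟨Finset.mem_coe.1 he.1, ?_⟩
    rintro ⟨-, h5⟩
    rcases hc with ⟨h6, h7⟩ | ⟨h6, h7⟩
    · rw [h6, h7] at h5
      exact h5.elim h2 hc'
    · rw [h6, h7] at h5
      exact h5.elim hc' h2

/-- the inner event -/
def U (n : ℕ) (w : Vtx) (F : Set Edg) : Prop :=
  (∃ y, sd y (0, 0) = n ∧ y ∈ KC (0, 0) n w F) ∧ ∃ x, sd x w = 2 ∧ ∃ y, sd y (0, 0) = n ∧
    Reach {e | e ∈ blk (0, 0) n ∧ src e ∉ KC (0, 0) n w F ∧ tgt e ∉ KC (0, 0) n w F} x y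

theorem U_congr {n : ℕ} {w : Vtx} {F F' : Set Edg}
    (h : KC (0, 0) n w F' = KC (0, 0) n w F) (hU : U n w F) : U n w F' := by
  unfold U at hU ⊢
  rw [h]
  exact hU

theorem U_of {m M B k n R : ℕ} {w : Vtx} {F : Set Edg} (hw : sd w (0, 0) ≤ R)
    (hn : R + 2 ≤ n) (hk : n + R ≤ k) (hm : n + R ≤ m) (h : TW m M B k w F) : U n w F := by
  have hsub : KC (0, 0) n w F ⊆ KC w m w F := by
    apply KC_sub
    apply blk_sub
    rw [sd_comm]
    omega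
  obtain ⟨x, hx, y, hy, -, hr⟩ := TW_TQ hw hn hk h
  obtain ⟨⟨z, hz, hzK⟩, -⟩ := h
  have h2 := sd_tri z (0, 0) w
  rw [sd_comm (0, 0) w] at h2
  refine ⟨?_, x, hx, y, hy, hr.mono ?_⟩
  · obtain ⟨z', hz', hr'⟩ := firstX' (k := n) (c := (0, 0)) (by omega) (by omega) hzK
    refine ⟨z', hz', Reach.mono ?_ hr'⟩
    rintro e ⟨⟨h3, -⟩, h4⟩
    exact ⟨h3, h4⟩
  · rintro e ⟨h3, h4⟩
    have h5 := TE'_notmem h3
    exact ⟨Finset.mem_coe.1 h4, fun h => h5.1 (hsub h), fun h => h5.2 (hsub h)⟩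

theorem U_A3v {n R : ℕ} {w : Vtx} {F : Set Edg} (hw : sd w (0, 0) ≤ R) (hn : 2 * R < n)
    (hn4 : 4 ≤ n) (h : U n w F) : A3v w 2 (n / 2) F := by
  obtain ⟨⟨z, hz, hzK⟩, x, hx, y, hy, hr⟩ := h
  have h1 := sd_tri z w (0, 0)
  have h2 := sd_tri y w (0, 0)
  refine mkA3 (c := (0, 0)) (m := n) le_rfl (by omega) (blk_sub (by omega)) (by omega) hzK
    (p := x) (q := y) (by omega) (by omega) hr ?_
  rintro e ⟨-, h3, h4⟩
  exact ⟨h3, h4⟩

theorem second {m M B k n R : ℕ} {w : Vtx} (hw : sd w (0, 0) ≤ R) (hR : 1 ≤ R)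
    (hn : 4 * R ≤ n) (hk : n + R ≤ k) (hm : n + R ≤ m) (S : Finset Edg) :
    PQ (1 / 2) S (fun F => TW m M B k w ↑F ∧ ¬ NoS n R w ↑F) ≤
      PQ (1 / 2) S (fun F => A3v w 2 (n / 2) ↑F) *
        PQ (1 / 2) S (fun F => Crs 0 0 (9 * R) n ↑F) := by
  have h1 := markov_le okh (stop n w S) (A := fun F => U n w (↑F : Set Edg))
    (B := fun F => Crs 0 0 (9 * R) n (↑F : Set Edg))
    (fun F F' _ _ h hA => U_congr (KC_one h) hA)
    (fun F G hFG hF => by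
      obtain ⟨x, y, a, b, c⟩ := hF
      exact ⟨x, y, a, b, Reach.mono (by exact_mod_cast hFG) c⟩)
  have h2 : PQ (1 / 2) S (fun F => U n w (↑F : Set Edg)) ≤
      PQ (1 / 2) S (fun F => A3v w 2 (n / 2) ↑F) :=
    Pr_mono okh fun F _ h => U_A3v hw (by omega) (by omega) h
  refine le_trans ?_ (mul_le_mul_of_nonneg_right h2 (Pr_nonneg okh _ _))
  refine le_trans (Pr_mono okh ?_) h1
  rintro F _ ⟨hF, hN⟩
  refine ⟨U_of hw (by omega) hk hm hF, ?_⟩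
  unfold NoS at hN
  push Not at hN
  obtain ⟨x, hx, y, hy, hxy, hxw⟩ := hN
  refine ⟨x, y, ?_, ?_, (off hxw hxy).1⟩
  · rw [sd_le_iff] at hx
    unfold inR
    push_cast at hx ⊢
    omega
  · rw [sd_eq_iff] at hy
    omega

end Pool.Agent.V5helper72.OB
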