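import Pool.Agent.V5helper72.OB.Mom2

/-!
# Box event: the second moment method (helper72, JOB BOX of helper99; adapted from
`Pool.Agent.Y989.FR.T_GOOD3`)
-/

set_option autoImplicit false
set_option maxHeartbeats 400000

namespace Pool.Agent.V5helper72.OB

open H974 H973 H12S H934E Finset H984P H984N
open Pool.Agent.Y989.FR (AE Clu A3v Awy Acc TkA cl S_ACC S_THK S_U3)

/-! ### Sums -/

/-- one-dimensional sum -/
theorem t5_one {b : ℝ} (hb : 0 ≤ b) (hb1 : b < 1) : ∀ h : ℤ, 1 ≤ h → ∀ (k : ℤ) (J : Finset ℤ),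
    (∀ l ∈ J, |k - l| ≤ 2 * h) →
    ∑ l ∈ J, ((max |k - l| 1 : ℤ) : ℝ) ^ (-b) ≤ (1 + 4 / (1 - b)) * (h : ℝ) ^ (1 - b) := by
  intro h hh k J hJ
  have hb2 : 0 < 1 - b := by linarith
  have hh1 : (1:ℝ) ≤ h := by exact_mod_cast hh
  have hh0 : (0:ℝ) < h := by linarith
  have h1 := sum_dp hb hb1 (u := 2 * h) (k := k) (J := J) (by omega) hJ
  have h2 : ∑ l ∈ J.erase k, ((max |k - l| 1 : ℤ) : ℝ) ^ (-b) = ∑ l ∈ J.erase k, dp b k l := by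
    apply Finset.sum_congr rfl
    intro l hl
    rw [Finset.mem_erase] at hl
    unfold dp
    have : (1 : ℤ) ≤ |k - l| := Int.one_le_abs (sub_ne_zero.mpr (fun e => hl.1 e.symm))
    rw [max_eq_left this]
    push_cast
    rfl
  have h3 : ∑ l ∈ J, ((max |k - l| 1 : ℤ) : ℝ) ^ (-b) ≤
      1 + ∑ l ∈ J.erase k, ((max |k - l| 1 : ℤ) : ℝ) ^ (-b) := by
    by_cases hk : k ∈ J
    · rw [← Finset.add_sum_erase _ _ hk]
      simp
    · rw [Finset.erase_eq_of_notMem hk]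
      linarith
  have h4 : (1:ℝ) ≤ (h : ℝ) ^ (1 - b) := Real.one_le_rpow hh1 hb2.le
  have h5 : (2 * (h : ℝ)) ^ (1 - b) ≤ 2 * (h : ℝ) ^ (1 - b) := by
    rw [Real.mul_rpow (by norm_num) hh0.le]
    apply mul_le_mul_of_nonneg_right _ (Real.rpow_nonneg hh0.le _)
    calc (2:ℝ) ^ (1 - b) ≤ (2:ℝ) ^ (1:ℝ) :=
          Real.rpow_le_rpow_of_exponent_le (by norm_num) (by linarith)
      _ = 2 := Real.rpow_one _
  have h6 : 2 * ((((2 * h : ℤ) : ℝ)) ^ (1 - b) / (1 - b)) ≤ 4 / (1 - b) * (h : ℝ) ^ (1 - b) := by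
    push_cast
    have : (2 * (h : ℝ)) ^ (1 - b) / (1 - b) ≤ 2 * (h : ℝ) ^ (1 - b) / (1 - b) :=
      div_le_div_of_nonneg_right h5 hb2.le
    calc _ ≤ 2 * (2 * (h : ℝ) ^ (1 - b) / (1 - b)) := by linarith
      _ = _ := by ring
  rw [h2] at h3
  nlinarith

theorem t5_max_nonneg (a : ℤ) : (0:ℝ) ≤ ((max a 1 : ℤ) : ℝ) := by
  have : (0 : ℤ) ≤ max a 1 := le_trans zero_le_one (le_max_right _ _)
  exact_mod_cast this

theorem t5_max_pos (a : ℤ) : (0:ℝ) < ((max a 1 : ℤ) : ℝ) := by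
  have : (0 : ℤ) < max a 1 := lt_of_lt_of_le zero_lt_one (le_max_right _ _)
  exact_mod_cast this

/-- two-dimensional sum -/
theorem t5_two {a : ℝ} (ha : 0 ≤ a) (ha1 : a < 2) (h : ℕ) (hh : 1 ≤ h) (v : Vtx)
    (hv : v ∈ core h) :
    ∑ w ∈ core h, ((max (sd v w) 1 : ℤ) : ℝ) ^ (-a) ≤
      (1 + 4 / (1 - a / 2)) ^ 2 * (h : ℝ) ^ (2 - a) := by
  have hh0 : (0:ℝ) < h := by exact_mod_cast hh
  unfold core at hv ⊢
  rw [Finset.mem_product, Finset.mem_Icc, Finset.mem_Icc] at hv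
  have b0 : 0 ≤ a / 2 := by linarith
  have b1 : a / 2 < 1 := by linarith
  have s1 := t5_one b0 b1 (h : ℤ) (by omega) v.1 (Finset.Icc (-(h : ℤ)) h) (by
    intro l hl
    rw [Finset.mem_Icc] at hl
    rw [abs_le]
    omega)
  have s2 := t5_one b0 b1 (h : ℤ) (by omega) v.2 (Finset.Icc (-(h : ℤ)) h) (by
    intro l hl
    rw [Finset.mem_Icc] at hl
    rw [abs_le]
    omega)
  rw [Int.cast_natCast] at s1 s2
  have key : ∀ w : Vtx, ((max (sd v w) 1 : ℤ) : ℝ) ^ (-a) ≤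
      ((max |v.1 - w.1| 1 : ℤ) : ℝ) ^ (-(a / 2)) * ((max |v.2 - w.2| 1 : ℤ) : ℝ) ^ (-(a / 2)) := by
    intro w
    have m1 : ((max |v.1 - w.1| 1 : ℤ) : ℝ) ≤ ((max (sd v w) 1 : ℤ) : ℝ) := by
      have : max |v.1 - w.1| 1 ≤ max (sd v w) 1 := max_le_max (le_max_left _ _) le_rfl
      exact_mod_cast this
    have m2 : ((max |v.2 - w.2| 1 : ℤ) : ℝ) ≤ ((max (sd v w) 1 : ℤ) : ℝ) := by
      have : max |v.2 - w.2| 1 ≤ max (sd v w) 1 := max_le_max (le_max_right _ _) le_rfl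
      exact_mod_cast this
    have e : ((max (sd v w) 1 : ℤ) : ℝ) ^ (-a) =
        ((max (sd v w) 1 : ℤ) : ℝ) ^ (-(a / 2)) * ((max (sd v w) 1 : ℤ) : ℝ) ^ (-(a / 2)) := by
      rw [← Real.rpow_add (t5_max_pos _)]
      congr 1
      ring
    rw [e]
    exact mul_le_mul
      (Real.rpow_le_rpow_of_nonpos (t5_max_pos _) m1 (by linarith))
      (Real.rpow_le_rpow_of_nonpos (t5_max_pos _) m2 (by linarith))
      (Real.rpow_nonneg (t5_max_nonneg _) _) (Real.rpow_nonneg (t5_max_nonneg _) _)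
  have h0 : 0 ≤ ∑ l ∈ Finset.Icc (-(h : ℤ)) h, ((max |v.2 - l| 1 : ℤ) : ℝ) ^ (-(a / 2)) :=
    Finset.sum_nonneg (fun _ _ => Real.rpow_nonneg (t5_max_nonneg _) _)
  calc ∑ w ∈ Finset.Icc (-(h : ℤ)) h ×ˢ Finset.Icc (-(h : ℤ)) h, ((max (sd v w) 1 : ℤ) : ℝ) ^ (-a)
      ≤ ∑ w ∈ Finset.Icc (-(h : ℤ)) h ×ˢ Finset.Icc (-(h : ℤ)) h,
        ((max |v.1 - w.1| 1 : ℤ) : ℝ) ^ (-(a / 2)) * ((max |v.2 - w.2| 1 : ℤ) : ℝ) ^ (-(a / 2)) :=
        Finset.sum_le_sum (fun w _ => key w)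
    _ = (∑ l ∈ Finset.Icc (-(h : ℤ)) h, ((max |v.1 - l| 1 : ℤ) : ℝ) ^ (-(a / 2))) *
        ∑ l ∈ Finset.Icc (-(h : ℤ)) h, ((max |v.2 - l| 1 : ℤ) : ℝ) ^ (-(a / 2)) := by
        rw [Finset.sum_product, Finset.sum_mul_sum]
    _ ≤ ((1 + 4 / (1 - a / 2)) * (h : ℝ) ^ (1 - a / 2)) *
        ((1 + 4 / (1 - a / 2)) * (h : ℝ) ^ (1 - a / 2)) :=
        mul_le_mul s1 s2 h0 (h0.trans s2)
    _ = (1 + 4 / (1 - a / 2)) ^ 2 * ((h : ℝ) ^ (1 - a / 2) * (h : ℝ) ^ (1 - a / 2)) := by ring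
    _ = _ := by
        rw [← Real.rpow_add hh0]
        congr 2
        ring

/-! ### Number of vertices and energy -/

/-- energy of a set of vertices -/
noncomputable def En (t : ℝ) (V : Finset Vtx) : ℝ :=
  ∑ v ∈ V, ∑ w ∈ V, ((max (sd v w) 1 : ℤ) : ℝ) ^ (-t)

theorem En_nonneg (t : ℝ) (V : Finset Vtx) : 0 ≤ En t V :=
  Finset.sum_nonneg (fun _ _ => Finset.sum_nonneg
    (fun _ _ => Real.rpow_nonneg (t5_max_nonneg _) _))

theorem En_mono (t : ℝ) {V W : Finset Vtx} (h : V ⊆ W) : En t V ≤ En t W := by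
  unfold En
  refine (Finset.sum_le_sum fun v _ => Finset.sum_le_sum_of_subset_of_nonneg h
    fun _ _ _ => Real.rpow_nonneg (t5_max_nonneg _) _).trans ?_
  exact Finset.sum_le_sum_of_subset_of_nonneg h fun _ _ _ =>
    Finset.sum_nonneg fun _ _ => Real.rpow_nonneg (t5_max_nonneg _) _

section
variable (E : Vtx → Finset Edg → Prop)

open Classical in
/-- the vertices of the core with the event -/
noncomputable def VF (R : ℕ) (F : Finset Edg) : Finset Vtx := (core R).filter (fun v => E v F)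

theorem t5_N (R : ℕ) (F : Finset Edg) :
    ((VF E R F).card : ℝ) = ∑ v ∈ core R, ind (E v F) := by
  classical
  unfold VF
  rw [Finset.card_filter]
  push_cast
  apply Finset.sum_congr rfl
  intro v _
  by_cases hv : E v F
  · rw [if_pos hv, ind_of hv]
  · rw [if_neg hv, ind_not_of hv]

theorem t5_En (t : ℝ) (R : ℕ) (F : Finset Edg) :
    En t (VF E R F) = ∑ v ∈ core R, ∑ w ∈ core R,
      ((max (sd v w) 1 : ℤ) : ℝ) ^ (-t) * ind (E v F ∧ E w F) := by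
  classical
  unfold En VF
  rw [Finset.sum_filter]
  apply Finset.sum_congr rfl
  intro v _
  by_cases hv : E v F
  · rw [if_pos hv, Finset.sum_filter]
    apply Finset.sum_congr rfl
    intro w _
    by_cases hw : E w F
    · rw [if_pos hw, ind_of ⟨hv, hw⟩, mul_one]
    · rw [if_neg hw, ind_not_of (fun h => hw h.2), mul_zero]
  · rw [if_neg hv]
    symm
    apply Finset.sum_eq_zero
    intro w _
    rw [ind_not_of (fun h => hv h.1), mul_zero]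

theorem t5_sq (R : ℕ) (F : Finset Edg) :
    ((VF E R F).card : ℝ) * ((VF E R F).card : ℝ) = En 0 (VF E R F) := by
  unfold En
  simp only [neg_zero, Real.rpow_zero, Finset.sum_const, nsmul_eq_mul, mul_one]

/-- expectation of the energy -/
theorem t5_EE {C t : ℝ} (hC : 0 < C) (ht : 0 ≤ t) (ht1 : t < 4 / 3) {R : ℕ} (hR : 1 ≤ R)
    {S : Finset Edg} (h2 : ∀ v ∈ core R, ∀ w ∈ core R, PQ (1 / 2) S (fun F => E v F ∧ E w F) ≤
      C * ((max (sd v w) 1 : ℤ) : ℝ) ^ (-(2 / 3) : ℝ) * (R : ℝ) ^ (-(2 / 3) : ℝ)) :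
    EE S (fun F => En t (VF E R F)) ≤
      9 * C * (1 + 4 / (1 - (t + 2 / 3) / 2)) ^ 2 * (R : ℝ) ^ (8 / 3 - t) := by
  have hb : 0 < 1 - (t + 2 / 3) / 2 := by linarith
  have ha0 : (0:ℝ) < R := by exact_mod_cast hR
  have ha1 : (1:ℝ) ≤ R := by exact_mod_cast hR
  have e1 : EE S (fun F => En t (VF E R F)) = ∑ v ∈ core R, ∑ w ∈ core R,
      ((max (sd v w) 1 : ℤ) : ℝ) ^ (-t) * Q S (fun F => E v F ∧ E w F) := by
    have e0 : EE S (fun F => En t (VF E R F)) = EE S (fun F => ∑ v ∈ core R, ∑ w ∈ core R,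
      ((max (sd v w) 1 : ℤ) : ℝ) ^ (-t) * ind (E v F ∧ E w F)) := by
      congr 1
      funext F
      exact t5_En E t R F
    rw [e0]
    unfold EE
    rw [Ex_sum]
    apply Finset.sum_congr rfl
    intro v _
    rw [Ex_sum]
    apply Finset.sum_congr rfl
    intro w _
    rw [Ex_mul_left]
    rfl
  rw [e1]
  have h3 : ∀ v ∈ core R, ∑ w ∈ core R,
      ((max (sd v w) 1 : ℤ) : ℝ) ^ (-t) * Q S (fun F => E v F ∧ E w F) ≤
      C * (R : ℝ) ^ (-(2 / 3) : ℝ) *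
        ((1 + 4 / (1 - (t + 2 / 3) / 2)) ^ 2 * (R : ℝ) ^ (2 - (t + 2 / 3))) := by
    intro v hv
    have i1 := t5_two (a := t + 2 / 3) (by linarith) (by linarith) R hR v hv
    refine le_trans ?_ (mul_le_mul_of_nonneg_left i1
      (mul_nonneg hC.le (Real.rpow_nonneg ha0.le _)))
    rw [Finset.mul_sum]
    apply Finset.sum_le_sum
    intro w hw
    have i2 := h2 v hv w hw
    have e2 : ((max (sd v w) 1 : ℤ) : ℝ) ^ (-(t + 2 / 3)) =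
        ((max (sd v w) 1 : ℤ) : ℝ) ^ (-t) * ((max (sd v w) 1 : ℤ) : ℝ) ^ (-(2 / 3) : ℝ) := by
      rw [← Real.rpow_add (t5_max_pos _)]
      congr 1
      ring
    rw [e2]
    calc _ ≤ ((max (sd v w) 1 : ℤ) : ℝ) ^ (-t) *
          (C * ((max (sd v w) 1 : ℤ) : ℝ) ^ (-(2 / 3) : ℝ) * (R : ℝ) ^ (-(2 / 3) : ℝ)) :=
          mul_le_mul_of_nonneg_left i2 (Real.rpow_nonneg (t5_max_nonneg _) _)
      _ = _ := by ring
  refine (Finset.sum_le_sum h3).trans ?_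
  rw [Finset.sum_const, nsmul_eq_mul, card_core]
  have e3 : (R : ℝ) ^ 2 * ((R : ℝ) ^ (-(2 / 3) : ℝ) * (R : ℝ) ^ (2 - (t + 2 / 3))) =
      (R : ℝ) ^ (8 / 3 - t) := by
    rw [← Real.rpow_add ha0, ← Real.rpow_natCast, ← Real.rpow_add ha0]
    congr 1
    push_cast
    ring
  have h4 : (2 * (R : ℝ) + 1) ^ 2 ≤ 9 * (R : ℝ) ^ 2 := by nlinarith
  have h5 : 0 ≤ C * (R : ℝ) ^ (-(2 / 3) : ℝ) *
        ((1 + 4 / (1 - (t + 2 / 3) / 2)) ^ 2 * (R : ℝ) ^ (2 - (t + 2 / 3))) := by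
    have := Real.rpow_nonneg ha0.le (-(2 / 3) : ℝ)
    have := Real.rpow_nonneg ha0.le (2 - (t + 2 / 3))
    positivity
  calc (2 * (R : ℝ) + 1) ^ 2 * (C * (R : ℝ) ^ (-(2 / 3) : ℝ) *
        ((1 + 4 / (1 - (t + 2 / 3) / 2)) ^ 2 * (R : ℝ) ^ (2 - (t + 2 / 3))))
      ≤ (9 * (R : ℝ) ^ 2) * (C * (R : ℝ) ^ (-(2 / 3) : ℝ) *
        ((1 + 4 / (1 - (t + 2 / 3) / 2)) ^ 2 * (R : ℝ) ^ (2 - (t + 2 / 3)))) :=
        mul_le_mul_of_nonneg_right h4 h5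
    _ = 9 * C * (1 + 4 / (1 - (t + 2 / 3) / 2)) ^ 2 *
        ((R : ℝ) ^ 2 * ((R : ℝ) ^ (-(2 / 3) : ℝ) * (R : ℝ) ^ (2 - (t + 2 / 3)))) := by ring
    _ = _ := by rw [e3]

/-- second moment method -/
theorem sec_mom {A C0 Ct t : ℝ} (hA0 : 0 < A) (hC0 : 0 < C0) (hCt : 0 < Ct) {R : ℕ} (hR : 1 ≤ R)
    {S : Finset Edg}
    (h1 : A * (R : ℝ) ^ (4 / 3 : ℝ) ≤ ∑ v ∈ core R, PQ (1 / 2) S (fun F => E v F))
    (hE0 : EE S (fun F => En 0 (VF E R F)) ≤ C0 * (R : ℝ) ^ (8 / 3 - (0 : ℝ)))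
    (hEt : EE S (fun F => En t (VF E R F)) ≤ Ct * (R : ℝ) ^ (8 / 3 - t)) :
    A ^ 2 / (4 * C0) / 2 ≤ PQ (1 / 2) S (fun F => A / 2 * (R : ℝ) ^ (4 / 3 : ℝ) ≤
      ((VF E R F).card : ℝ) ∧
      En t (VF E R F) ≤ Ct / (A ^ 2 / (4 * C0) / 2) * (R : ℝ) ^ (8 / 3 - t)) := by
  set p : ℝ := A ^ 2 / (4 * C0) / 2 with hp
  have hp0 : 0 < p := by positivity
  have hm0 : (0:ℝ) < R := by exact_mod_cast hR
  have hU : 0 < (R : ℝ) ^ (4 / 3 : ℝ) := Real.rpow_pos_of_pos hm0 _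
  have hU2 : (R : ℝ) ^ (4 / 3 : ℝ) * (R : ℝ) ^ (4 / 3 : ℝ) = (R : ℝ) ^ (8 / 3 - (0:ℝ)) := by
    rw [← Real.rpow_add hm0]; norm_num
  set X : Finset Edg → ℝ := fun F => ((VF E R F).card : ℝ) with hX
  have hX0 : ∀ F, 0 ≤ X F := fun F => Nat.cast_nonneg _
  -- first moment
  have l1 : A * (R : ℝ) ^ (4 / 3 : ℝ) ≤ EE S X := by
    have e1 : EE S X = ∑ v ∈ core R, Q S (fun F => E v F) := by
      have e0 : EE S X = EE S (fun F => ∑ v ∈ core R, ind (E v F)) := by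
        congr 1
        funext F
        exact t5_N E R F
      rw [e0]
      unfold EE
      rw [Ex_sum]
      rfl
    rw [e1]
    exact h1
  -- second moment
  have l2 : EE S (fun F => X F * X F) ≤ C0 * (R : ℝ) ^ (8 / 3 - (0:ℝ)) := by
    refine le_trans (le_of_eq ?_) hE0
    congr 1
    funext F
    exact t5_sq E R F
  have k := paley (S := S) (f := X) (fun F _ => hX0 F)
    (m := A * (R : ℝ) ^ (4 / 3 : ℝ)) (V := C0 * (R : ℝ) ^ (8 / 3 - (0:ℝ)))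
    (by positivity) (by positivity) l1 l2
  have e3 : (A * (R : ℝ) ^ (4 / 3 : ℝ)) ^ 2 /
      (4 * (C0 * (R : ℝ) ^ (8 / 3 - (0:ℝ)))) = 2 * p := by
    rw [← hU2, hp]
    field_simp
  rw [e3] at k
  -- energy
  have hU3 : 0 < (R : ℝ) ^ (8 / 3 - t) := Real.rpow_pos_of_pos hm0 _
  have i2 := markov (S := S) (f := fun F => En t (VF E R F)) (fun F _ => En_nonneg t _)
    (t := Ct / p * (R : ℝ) ^ (8 / 3 - t)) (by positivity)
  have i3 : EE S (fun F => En t (VF E R F)) / (Ct / p * (R : ℝ) ^ (8 / 3 - t)) ≤ p := by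
    rw [div_le_iff₀ (by positivity)]
    refine hEt.trans (le_of_eq ?_)
    field_simp
  have i4 : Q S (fun F => A * (R : ℝ) ^ (4 / 3 : ℝ) / 2 ≤ X F) ≤
      Q S (fun F => A / 2 * (R : ℝ) ^ (4 / 3 : ℝ) ≤ ((VF E R F).card : ℝ) ∧
        En t (VF E R F) ≤ Ct / p * (R : ℝ) ^ (8 / 3 - t)) +
      Q S (fun F => Ct / p * (R : ℝ) ^ (8 / 3 - t) ≤ En t (VF E R F)) := by
    refine le_trans ?_ (Pr_or_le okhalf S _ _)
    apply Q_mono
    intro F _ hF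
    by_cases h5 : En t (VF E R F) ≤ Ct / p * (R : ℝ) ^ (8 / 3 - t)
    · left
      refine ⟨?_, h5⟩
      refine le_trans (le_of_eq ?_) hF
      ring
    · exact Or.inr (le_of_not_ge h5)
  have i5 : p ≤ Q S (fun F => A / 2 * (R : ℝ) ^ (4 / 3 : ℝ) ≤ ((VF E R F).card : ℝ) ∧
        En t (VF E R F) ≤ Ct / p * (R : ℝ) ^ (8 / 3 - t)) := by linarith
  exact i5

end

/-- **the good event** -/
theorem good (hA : S_ACC) (hT : S_THK) (hU : S_U3) : ∃ (M B Λ R0 : ℕ), 1 ≤ M ∧ 1 ≤ B ∧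
    64 ≤ Λ ∧ 1 ≤ R0 ∧ ∀ t : ℝ, 0 < t → t < 4 / 3 → ∃ c0 E0 p : ℝ, 0 < c0 ∧ 0 < E0 ∧ 0 < p ∧
      ∀ R : ℕ, R0 ≤ R → p ≤ PQ (1 / 2) (blk (0, 0) (513 * (Λ * R))) (fun F =>
        c0 * (R : ℝ) ^ (4 / 3 : ℝ) ≤ ((VF (fun w F => Ev (512 * (Λ * R)) M B (8 * (Λ * R)) (Λ * R) R
          (Lft (Λ * R)) w ↑F) R F).card : ℝ) ∧
        En t (VF (fun w F => Ev (512 * (Λ * R)) M B (8 * (Λ * R)) (Λ * R) R
          (Lft (Λ * R)) w ↑F) R F) ≤ E0 * (R : ℝ) ^ (8 / 3 - t)) := by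
  obtain ⟨M, B, Λ, R0, A, hM, hB, hΛ, hR0, hA0, hone⟩ := one_left hA hT hU
  obtain ⟨C, hC, htwo⟩ := two_pt hU
  refine ⟨M, B, Λ, R0, hM, hB, hΛ, hR0, ?_⟩
  intro t ht ht1
  have hb : 0 < 1 - (t + 2 / 3) / 2 := by linarith
  set C0 : ℝ := 9 * C * (1 + 4 / (1 - ((0:ℝ) + 2 / 3) / 2)) ^ 2 with hC0
  set Ct : ℝ := 9 * C * (1 + 4 / (1 - (t + 2 / 3) / 2)) ^ 2 with hCt
  have hC00 : 0 < C0 := by
    rw [hC0]
    positivity
  have hCt0 : 0 < Ct := by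
    rw [hCt]
    positivity
  refine ⟨A / 2, Ct / (A ^ 2 / (4 * C0) / 2), A ^ 2 / (4 * C0) / 2, by positivity, by positivity,
    by positivity, ?_⟩
  intro R hR
  have hR1 : 1 ≤ R := hR0.trans hR
  have hR00 : (0 : ℝ) < R := by exact_mod_cast hR1
  have h1 := hone R hR
  have hnR : 64 * R ≤ Λ * R := Nat.mul_le_mul_right _ hΛ
  have h2 := fun v (hv : v ∈ core R) w (hw : w ∈ core R) =>
    htwo (512 * (Λ * R)) M B (8 * (Λ * R)) (Λ * R) R (Lft (Λ * R)) hR1 hnR (by omega) v hv w hw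
      (blk (0, 0) (513 * (Λ * R))) (blk_mono (by omega))
  have h3 : ∀ v ∈ core R, ∀ w ∈ core R, PQ (1 / 2) (blk (0, 0) (513 * (Λ * R)))
      (fun F => Ev (512 * (Λ * R)) M B (8 * (Λ * R)) (Λ * R) R (Lft (Λ * R)) v ↑F ∧
        Ev (512 * (Λ * R)) M B (8 * (Λ * R)) (Λ * R) R (Lft (Λ * R)) w ↑F) ≤
      C * ((max (sd v w) 1 : ℤ) : ℝ) ^ (-(2 / 3) : ℝ) * (R : ℝ) ^ (-(2 / 3) : ℝ) := by
    intro v hv w hw
    refine (h2 v hv w hw).trans ?_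
    have h4 : ((Λ * R : ℕ) : ℝ) ^ (-(2 / 3) : ℝ) ≤ (R : ℝ) ^ (-(2 / 3) : ℝ) := by
      refine Real.rpow_le_rpow_of_nonpos hR00 ?_ (by norm_num)
      exact_mod_cast (by omega : R ≤ Λ * R)
    exact mul_le_mul_of_nonneg_left h4 (mul_nonneg hC.le (Real.rpow_nonneg (t5_max_nonneg _) _))
  exact sec_mom _ hA0 hC00 hCt0 hR1 h1
    (t5_EE (fun w F => Ev (512 * (Λ * R)) M B (8 * (Λ * R)) (Λ * R) R (Lft (Λ * R)) w ↑F) hC
      le_rfl (by norm_num) hR1 h3)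
    (t5_EE (fun w F => Ev (512 * (Λ * R)) M B (8 * (Λ * R)) (Λ * R) R (Lft (Λ * R)) w ↑F) hC
      ht.le ht1 hR1 h3)

end Pool.Agent.V5helper72.OB
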