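import Pool.Agent.V5helper72.OB.Two
import Pool.Agent.H12R2.Sep.Win1
import Pool.Agent.H12R2.Sep.Win2
import Pool.Agent.H12R2.Sep.WinHalf

/-!
# Box event: one-point lower bound and second moment method (helper72, JOB BOX of helper99)
-/

set_option autoImplicit false

namespace Pool.Agent.V5helper72.OB

open H974 H973 H12S H934E Finset H984P H984N
open Pool.Agent.Y989.FR (AE Clu A3v Awy Acc TkA cl S_ACC S_THK S_U3)

theorem third_rpow {x : ℝ} (hx : 0 ≤ x) : (8 : ℝ) ^ (-(2 / 3) : ℝ) = 1 / 4 ∧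
    (8 * x) ^ (-(2 / 3) : ℝ) = 1 / 4 * x ^ (-(2 / 3) : ℝ) := by
  have h1 : (8 : ℝ) ^ (-(2 / 3) : ℝ) = 1 / 4 := by
    rw [show (8 : ℝ) = 2 ^ (3 : ℝ) by norm_num, ← Real.rpow_mul (by norm_num)]
    rw [show (3 : ℝ) * (-(2 / 3)) = -2 by norm_num, Real.rpow_neg (by norm_num)]
    norm_num
  exact ⟨h1, by rw [Real.mul_rpow (by norm_num) hx, h1]⟩

/-- One-point lower bound: `n = Λ R`, `m = 512 n`. -/
theorem one_pt (hA : S_ACC) (hT : S_THK) (hU : S_U3) : ∃ (M B Λ R0 : ℕ) (c : ℝ), 1 ≤ M ∧ 1 ≤ B ∧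
    64 ≤ Λ ∧ 1 ≤ R0 ∧ 0 < c ∧ ∀ R : ℕ, R0 ≤ R → ∀ w : Vtx, sd w (0, 0) ≤ R →
      ∀ S : Finset Edg, blk (0, 0) (513 * (Λ * R)) ⊆ S →
      c * (R : ℝ) ^ (-(2 / 3) : ℝ) ≤ PQ (1 / 2) S
        (fun F => Ev (512 * (Λ * R)) M B (8 * (Λ * R)) (Λ * R) R (fun _ => True) w ↑F) := by
  obtain ⟨M, B, m0, c1, hM, hB, hm0, hc1, hone⟩ := one_TW hA hT
  obtain ⟨C2, hC2, hU⟩ := hU
  obtain ⟨κ, hκ, hwin⟩ := win_half
  obtain ⟨C3, c3, hC3, hc3, harm⟩ := win_arm_of (fun h => win_blk h) κ hκ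
  -- choice of `Λ`
  obtain ⟨Λ, hΛ1, hΛ2⟩ : ∃ Λ : ℕ, 64 ≤ Λ ∧
      C2 * 4 * (C3 * ((9 : ℝ) / Λ) ^ c3) ≤ c1 / 128 := by
    have h1 : Filter.Tendsto (fun x : ℝ => (9 / x) ^ c3) Filter.atTop (nhds 0) := by
      have h2 : Filter.Tendsto (fun x : ℝ => (9 / x)) Filter.atTop (nhds 0) :=
        Filter.Tendsto.const_div_atTop Filter.tendsto_id 9
      have h3 := h2.rpow_const (p := c3) (Or.inr hc3.le)
      rwa [Real.zero_rpow hc3.ne'] at h3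
    have h2 : Filter.Tendsto (fun x : ℕ => C2 * 4 * (C3 * ((9 : ℝ) / x) ^ c3)) Filter.atTop
        (nhds (C2 * 4 * (C3 * 0))) :=
      ((h1.comp tendsto_natCast_atTop_atTop).const_mul C3).const_mul (C2 * 4)
    rw [mul_zero, mul_zero] at h2
    have h3 := (h2.eventually (gt_mem_nhds (by positivity : (0:ℝ) < c1 / 128))).and
      (Filter.eventually_ge_atTop 64)
    obtain ⟨Λ, hΛ⟩ := h3.exists
    exact ⟨Λ, hΛ.2, hΛ.1.le⟩
  refine ⟨M, B, Λ, m0, c1 / 128 * (Λ : ℝ) ^ (-(2 / 3) : ℝ), hM, hB, hΛ1, hm0, by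
    have : (0 : ℝ) < Λ := by exact_mod_cast (by omega : 0 < Λ)
    positivity, ?_⟩
  intro R hR w hw S hS
  obtain ⟨n, hn⟩ : ∃ n : ℕ, n = Λ * R := ⟨_, rfl⟩
  rw [← hn] at hS ⊢
  have hR1 : 1 ≤ R := hm0.trans hR
  have hnR : 64 * R ≤ n := by rw [hn]; exact Nat.mul_le_mul_right _ hΛ1
  have hn0 : (0 : ℝ) < n := by exact_mod_cast (by omega : 0 < n)
  have hR0 : (0 : ℝ) < R := by exact_mod_cast (by omega : 0 < R)
  have hΛ0 : (0 : ℝ) < Λ := by exact_mod_cast (by omega : 0 < Λ)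
  have hnS : blk (0, 0) n ⊆ S := (blk_mono (by omega)).trans hS
  have h1 := hone (512 * n) (by omega) w S
    ((blk_sub (by push_cast; omega)).trans hS)
  rw [show 512 * n / 64 = 8 * n by omega] at h1
  have h2 := second (m := 512 * n) (M := M) (B := B) (k := 8 * n) (n := n) hw hR1 (by omega)
    (by omega) (by omega) S
  have h3 := hU w 2 (n / 2) (by omega) (by omega) S ((blk_sub (by omega)).trans hnS)
  have h4 := (harm (1 / 2) n (hwin _) (9 * R) n (by omega) (by omega) le_rfl 0 0 S).1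
  -- numbers
  have e1 : ((512 * n : ℕ) : ℝ) ^ (-(2 / 3 : ℝ)) = 1 / 64 * (n : ℝ) ^ (-(2 / 3) : ℝ) := by
    push_cast
    rw [show (512 : ℝ) * n = 8 * (8 * (8 * n)) by ring, (third_rpow (by positivity)).2,
      (third_rpow (by positivity)).2, (third_rpow (by positivity)).2]
    ring
  have e2 : (((2 : ℕ) : ℝ) / ((n / 2 : ℕ) : ℝ)) ^ (2 / 3 : ℝ) ≤ 4 * (n : ℝ) ^ (-(2 / 3) : ℝ) := by
    have h5 : (n : ℝ) ≤ 4 * ((n / 2 : ℕ) : ℝ) := by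
      have : n ≤ 4 * (n / 2) := by omega
      exact_mod_cast this
    have h6 : (0 : ℝ) < ((n / 2 : ℕ) : ℝ) := by linarith
    have h7 : ((2 : ℕ) : ℝ) / ((n / 2 : ℕ) : ℝ) ≤ 8 / n := by
      rw [div_le_div_iff₀ h6 hn0]
      push_cast
      linarith
    refine (Real.rpow_le_rpow (by positivity) h7 (by norm_num)).trans (le_of_eq ?_)
    rw [Real.div_rpow (by norm_num) hn0.le, Real.rpow_neg hn0.le, div_eq_mul_inv]
    congr 1
    rw [show (8 : ℝ) = 2 ^ (3 : ℝ) by norm_num, ← Real.rpow_mul (by norm_num)]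
    norm_num
  have e3 : ((9 * R : ℕ) : ℝ) / (n : ℝ) = 9 / Λ := by
    rw [hn]
    push_cast
    field_simp
  rw [e1] at h1
  rw [e3] at h4
  have hN0 : (0 : ℝ) ≤ (n : ℝ) ^ (-(2 / 3) : ℝ) := by positivity
  have h5 : PQ (1 / 2) S (fun F => TW (512 * n) M B (8 * n) w ↑F ∧ ¬ NoS n R w ↑F) ≤
      c1 / 128 * (n : ℝ) ^ (-(2 / 3) : ℝ) := by
    refine h2.trans ?_
    calc PQ (1 / 2) S (fun F => A3v w 2 (n / 2) ↑F) * PQ (1 / 2) S (fun F => Crs 0 0 (9 * R) n ↑F)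
        ≤ (C2 * (4 * (n : ℝ) ^ (-(2 / 3) : ℝ))) * (C3 * ((9 : ℝ) / Λ) ^ c3) := by
          refine mul_le_mul (h3.trans (mul_le_mul_of_nonneg_left e2 hC2.le)) h4
            (Pr_nonneg okh _ _) (by positivity)
      _ = (C2 * 4 * (C3 * ((9 : ℝ) / Λ) ^ c3)) * (n : ℝ) ^ (-(2 / 3) : ℝ) := by ring
      _ ≤ _ := mul_le_mul_of_nonneg_right hΛ2 hN0
  have h6 : PQ (1 / 2) S (fun F => TW (512 * n) M B (8 * n) w ↑F) ≤
      PQ (1 / 2) S (fun F => Ev (512 * n) M B (8 * n) n R (fun _ => True) w ↑F) +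
      PQ (1 / 2) S (fun F => TW (512 * n) M B (8 * n) w ↑F ∧ ¬ NoS n R w ↑F) := by
    refine le_trans (Pr_mono okh ?_) (Pr_or_le okh _ _ _)
    intro F _ hF
    by_cases h : NoS n R w (↑F : Set Edg)
    · exact Or.inl ⟨hF.1, TW_TQ hw (by omega) (by omega) hF, h⟩
    · exact Or.inr ⟨hF, h⟩
  have e4 : c1 / 128 * (Λ : ℝ) ^ (-(2 / 3) : ℝ) * (R : ℝ) ^ (-(2 / 3) : ℝ) =
      c1 / 128 * (n : ℝ) ^ (-(2 / 3) : ℝ) := by
    rw [hn]
    push_cast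
    rw [Real.mul_rpow hΛ0.le hR0.le]
    ring
  rw [e4]
  linarith

/-- the left side -/
def Lft (n : ℕ) (y : Vtx) : Prop := y.1 = -(n : ℤ)

/-- **The sum of the one-point bounds for the left side.** -/
theorem one_left (hA : S_ACC) (hT : S_THK) (hU : S_U3) : ∃ (M B Λ R0 : ℕ) (c : ℝ), 1 ≤ M ∧
    1 ≤ B ∧ 64 ≤ Λ ∧ 1 ≤ R0 ∧ 0 < c ∧ ∀ R : ℕ, R0 ≤ R →
      c * (R : ℝ) ^ (4 / 3 : ℝ) ≤ ∑ w ∈ core R, PQ (1 / 2) (blk (0, 0) (513 * (Λ * R)))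
        (fun F => Ev (512 * (Λ * R)) M B (8 * (Λ * R)) (Λ * R) R (Lft (Λ * R)) w ↑F) := by
  obtain ⟨M, B, Λ, R0, c, hM, hB, hΛ, hR0, hc, hone⟩ := one_pt hA hT hU
  refine ⟨M, B, Λ, R0, c, hM, hB, hΛ, hR0, hc, ?_⟩
  intro R hR
  have hR1 : 1 ≤ R := hR0.trans hR
  have h1 := fun w (hw : w ∈ core R) => hone R hR w (mem_core.1 hw) _ (Finset.Subset.refl _)
  generalize hn : Λ * R = n at h1 ⊢
  set S := blk (0, 0) (513 * n) with hS
  -- the symmetries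
  have key : ∀ (g : LSym) (σ : Vtx → Prop), Iso g → g.ψ (0, 0) = (0, 0) →
      (∀ y, σ y → Lft n (g.ψ y)) →
      ∑ w ∈ core R, PQ (1 / 2) S (fun F => Ev (512 * n) M B (8 * n) n R σ w ↑F) ≤
        ∑ w ∈ core R, PQ (1 / 2) S (fun F => Ev (512 * n) M B (8 * n) n R (Lft n) w ↑F) := by
    intro g σ hg h0 hσ
    have h2 : ∑ w ∈ core R, PQ (1 / 2) S (fun F => Ev (512 * n) M B (8 * n) n R σ w ↑F) ≤
        ∑ w ∈ core R, PQ (1 / 2) S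
          (fun F => Ev (512 * n) M B (8 * n) n R (Lft n) (g.ψ w) ↑F) :=
      Finset.sum_le_sum fun w _ => Ev_pr hg h0 hσ w
    refine h2.trans (le_of_eq ?_)
    refine Finset.sum_equiv g.ψ ?_ (fun _ _ => rfl)
    intro w
    rw [mem_core, mem_core]
    have h3 := hg.dist w (0, 0)
    rw [h0] at h3
    rw [h3]
  have s1 := key (trl 0 0) (fun y => y.1 = -(n : ℤ)) (iso_trl 0 0) (by simp)
    (fun y hy => by obtain ⟨a, b⟩ := y; simpa [Lft] using hy)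
  have s2 := key (rfx 0) (fun y => y.1 = (n : ℤ)) iso_rfx (by simp)
    (fun y hy => by obtain ⟨a, b⟩ := y; simpa [Lft] using hy)
  have s3 := key tps (fun y => y.2 = -(n : ℤ)) iso_tps (by simp)
    (fun y hy => by obtain ⟨a, b⟩ := y; simpa [Lft] using hy)
  have s4 : ∑ w ∈ core R, PQ (1 / 2) S
        (fun F => Ev (512 * n) M B (8 * n) n R (fun y => y.2 = (n : ℤ)) w ↑F) ≤
      ∑ w ∈ core R, PQ (1 / 2) S (fun F => Ev (512 * n) M B (8 * n) n R (Lft n) w ↑F) := by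
    have h2 : ∑ w ∈ core R, PQ (1 / 2) S
          (fun F => Ev (512 * n) M B (8 * n) n R (fun y => y.2 = (n : ℤ)) w ↑F) ≤
        ∑ w ∈ core R, PQ (1 / 2) S
          (fun F => Ev (512 * n) M B (8 * n) n R (fun y => y.2 = -(n : ℤ)) ((rfy 0).ψ w) ↑F) :=
      Finset.sum_le_sum fun w _ => Ev_pr iso_rfy (by simp)
        (fun y hy => by obtain ⟨a, b⟩ := y; simpa using hy) w
    refine h2.trans (le_trans (le_of_eq ?_) s3)
    refine Finset.sum_equiv (rfy 0).ψ ?_ (fun _ _ => rfl)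
    intro w
    rw [mem_core, mem_core]
    have h3 := iso_rfy.dist w (0, 0)
    have h0 : (rfy 0).ψ (0, 0) = (0, 0) := by simp
    rw [h0] at h3
    rw [h3]
  -- decomposition
  have hdec : ∀ w ∈ core R, c * (R : ℝ) ^ (-(2 / 3) : ℝ) ≤
      PQ (1 / 2) S (fun F => Ev (512 * n) M B (8 * n) n R (fun y => y.1 = -(n : ℤ)) w ↑F) +
      (PQ (1 / 2) S (fun F => Ev (512 * n) M B (8 * n) n R (fun y => y.1 = (n : ℤ)) w ↑F) +
      (PQ (1 / 2) S (fun F => Ev (512 * n) M B (8 * n) n R (fun y => y.2 = -(n : ℤ)) w ↑F) +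
      PQ (1 / 2) S (fun F => Ev (512 * n) M B (8 * n) n R (fun y => y.2 = (n : ℤ)) w ↑F))) := by
    intro w hw
    refine (h1 w hw).trans ?_
    refine le_trans (Pr_mono okh (B := fun F =>
      Ev (512 * n) M B (8 * n) n R (fun y => y.1 = -(n : ℤ)) w ↑F ∨
      (Ev (512 * n) M B (8 * n) n R (fun y => y.1 = (n : ℤ)) w ↑F ∨
      (Ev (512 * n) M B (8 * n) n R (fun y => y.2 = -(n : ℤ)) w ↑F ∨
      Ev (512 * n) M B (8 * n) n R (fun y => y.2 = (n : ℤ)) w ↑F))) ?_) ?_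
    · rintro F _ ⟨a1, ⟨x, hx, y, hy, -, hr⟩, a3⟩
      obtain ⟨-, h3⟩ := sd_eq_iff.1 hy
      simp only [sub_zero] at h3
      rcases h3 with h3 | h3 | h3 | h3
      · exact Or.inr (Or.inl ⟨a1, ⟨x, hx, y, hy, h3, hr⟩, a3⟩)
      · exact Or.inl ⟨a1, ⟨x, hx, y, hy, h3, hr⟩, a3⟩
      · exact Or.inr (Or.inr (Or.inr ⟨a1, ⟨x, hx, y, hy, h3, hr⟩, a3⟩))
      · exact Or.inr (Or.inr (Or.inl ⟨a1, ⟨x, hx, y, hy, h3, hr⟩, a3⟩))
    · refine (Pr_or_le okh _ _ _).trans (add_le_add le_rfl ?_)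
      refine (Pr_or_le okh _ _ _).trans (add_le_add le_rfl ?_)
      exact Pr_or_le okh _ _ _
  have hsum := Finset.sum_le_sum hdec
  rw [Finset.sum_add_distrib, Finset.sum_add_distrib, Finset.sum_add_distrib,
    Finset.sum_const, nsmul_eq_mul, card_core] at hsum
  have hR00 : (0 : ℝ) < R := by exact_mod_cast (by omega : 0 < R)
  have h4 : 4 * (R : ℝ) ^ 2 ≤ (2 * (R : ℝ) + 1) ^ 2 := by nlinarith
  have e3 : (R : ℝ) ^ 2 * (R : ℝ) ^ (-(2 / 3) : ℝ) = (R : ℝ) ^ (4 / 3 : ℝ) := by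
    rw [← Real.rpow_natCast, ← Real.rpow_add hR00]
    congr 1
    norm_num
  have h5 : 4 * (c * (R : ℝ) ^ (4 / 3 : ℝ)) ≤
      (2 * (R : ℝ) + 1) ^ 2 * (c * (R : ℝ) ^ (-(2 / 3) : ℝ)) := by
    rw [← e3]
    have h6 : 0 ≤ c * (R : ℝ) ^ (-(2 / 3) : ℝ) := by positivity
    calc 4 * (c * ((R : ℝ) ^ 2 * (R : ℝ) ^ (-(2 / 3) : ℝ)))
        = 4 * (R : ℝ) ^ 2 * (c * (R : ℝ) ^ (-(2 / 3) : ℝ)) := by ring
      _ ≤ _ := mul_le_mul_of_nonneg_right h4 h6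
  linarith

end Pool.Agent.V5helper72.OB
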