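import Pool.Agent.V5helper99.OB.Stm2
import Pool.Agent.V5helper9.OB.Big

/-!
# NUM: bounded expected number of large clusters (helper72, MP_6bd702_pr)
-/

set_option autoImplicit false

namespace Pool.Agent.V5helper72.OB

open H974 H12S Finset H984P H984N
open Pool.Agent.V5helper99.OB

/-- **NUM** -/
theorem t_NUM : S_NUM := by
  intro σ hσ
  obtain ⟨N, hN⟩ := exists_nat_ge (1 / σ)
  obtain ⟨C, hC, hbig⟩ := Pool.Agent.V5helper9.OB.big N
  refine ⟨C, hC, ?_⟩
  intro n hn m hm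
  have hn0 : (0 : ℝ) < n := by exact_mod_cast hn
  have hm0 : (0 : ℝ) < m := lt_of_lt_of_le (by positivity) hm
  have hm1 : 1 ≤ m := by exact_mod_cast hm0
  have hnm : (n : ℤ) - 0 ≤ N * m := by
    have h1 : (n : ℝ) ≤ N * m := by
      have h2 : (1 / σ) * m ≤ N * m := mul_le_mul_of_nonneg_right hN hm0.le
      have h3 : (n : ℝ) ≤ (1 / σ) * m := by
        rw [one_div, inv_mul_eq_div, le_div_iff₀ hσ]
        linarith
      linarith
    have h2 : n ≤ N * m := by exact_mod_cast h1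
    rw [sub_zero]
    exact_mod_cast h2
  refine hbig m hm1 0 n 0 n hnm hnm (RE 0 n 0 n) (Finset.Subset.refl _)
    (fun v F => Lf v m (↑F : Set Edg)) _ ?_ ?_
  · rintro F _ v _ ⟨⟨w, hw, hr⟩, -⟩
    refine ⟨w, ?_, hr⟩
    unfold sd
    refine le_max_of_le_left ?_
    rw [abs_sub_comm]
    refine le_trans ?_ (le_abs_self _)
    linarith
  · rintro F _ v _ w _ ⟨-, h1⟩ ⟨-, h2⟩ hr
    have h3 := h1 w hr
    have h4 := h2 v hr.symm
    refine Prod.ext ?_ ?_ <;> omega

end Pool.Agent.V5helper72.OB
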