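import Pool.Agent.V5helper72.OB.Evs
import Pool.Agent.H934R2.Expl.Mom

/-!
# Box event: two-point bound and second moment (helper72, JOB BOX of helper99)
-/

set_option autoImplicit false

namespace Pool.Agent.V5helper72.OB

open H974 H973 H12S H934E Finset H984P H984N
open Pool.Agent.Y989.FR (AE Clu A3v Awy Acc TkA cl S_ACC S_THK S_U3)

/-- the core -/
noncomputable def core (R : ℕ) : Finset Vtx :=
  Finset.Icc (-(R : ℤ)) R ×ˢ Finset.Icc (-(R : ℤ)) R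

theorem mem_core {R : ℕ} {w : Vtx} : w ∈ core R ↔ sd w (0, 0) ≤ R := by
  unfold core
  rw [Finset.mem_product, Finset.mem_Icc, Finset.mem_Icc, sd_le_iff]
  simp only [sub_zero]

theorem card_core (R : ℕ) : ((core R).card : ℝ) = (2 * R + 1) ^ 2 := by
  unfold core
  rw [Finset.card_product, Int.card_Icc]
  have h1 : (((R : ℤ) + 1 - -(R : ℤ)).toNat : ℤ) = 2 * R + 1 := by omega
  have h3 : ((((R : ℤ) + 1 - -(R : ℤ)).toNat : ℤ) : ℝ) = ((2 * R + 1 : ℤ) : ℝ) := by rw [h1]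
  push_cast at h3 ⊢
  rw [h3]
  ring

theorem Ev_A3v {m M B k n R : ℕ} {σ : Vtx → Prop} {w : Vtx} {F : Set Edg}
    (h : Ev m M B k n R σ w F) (hw : sd w (0, 0) ≤ R) (hn : 2 * R < n) (hm : n ≤ m) {d j : ℕ}
    (hd : 2 ≤ d) (hdj : d ≤ j) (hj : 2 * j ≤ n) : A3v w d j F := by
  obtain ⟨⟨z, hz, hzK⟩, ⟨x, hx, y, hy, -, hr⟩, -⟩ := h
  have h2 := sd_tri y w (0, 0)
  refine mkA3 (c := w) (m := m) hd hdj (blk_mono (by omega)) (y := z) (by omega) hzK
    (p := x) (q := y) (by omega) (by omega) hr ?_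
  rintro e ⟨h3, -⟩
  exact TE'_notmem h3

theorem disj_blk {v w : Vtx} {j : ℕ} (h : 2 * (j : ℤ) < sd v w) :
    Disjoint (blk v j) (blk w j) := by
  rw [Finset.disjoint_left]
  intro e h1 h2
  have e1 := (mem_blk.1 h1).1
  have e2 := (mem_blk.1 h2).1
  have h3 := sd_tri v (src e) w
  rw [sd_comm v (src e)] at h3
  omega

/-- numerical form -/
theorem num {A r n x : ℝ} (hA : 1 ≤ A) (hr : 0 < r) (hn : 0 < n) (hx0 : 0 ≤ x)
    (hx : x ≤ A / (r * n)) :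
    x ^ (2 / 3 : ℝ) ≤ A * (r ^ (-(2 / 3) : ℝ) * n ^ (-(2 / 3) : ℝ)) := by
  have h1 : x ^ (2 / 3 : ℝ) ≤ (A / (r * n)) ^ (2 / 3 : ℝ) :=
    Real.rpow_le_rpow hx0 hx (by norm_num)
  refine h1.trans ?_
  have h2 : (A / (r * n)) ^ (2 / 3 : ℝ) =
      A ^ (2 / 3 : ℝ) * (r ^ (-(2 / 3) : ℝ) * n ^ (-(2 / 3) : ℝ)) := by
    rw [Real.div_rpow (by linarith) (by positivity), Real.mul_rpow hr.le hn.le,
      Real.rpow_neg hr.le, Real.rpow_neg hn.le]
    field_simp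
  rw [h2]
  have h3 : A ^ (2 / 3 : ℝ) ≤ A := by
    calc A ^ (2 / 3 : ℝ) ≤ A ^ (1 : ℝ) :=
          Real.rpow_le_rpow_of_exponent_le hA (by norm_num)
      _ = A := Real.rpow_one _
  have h4 : 0 ≤ r ^ (-(2 / 3) : ℝ) * n ^ (-(2 / 3) : ℝ) := by positivity
  exact mul_le_mul_of_nonneg_right h3 h4

theorem two_pt (hU : S_U3) : ∃ C : ℝ, 0 < C ∧ ∀ (m M B k n R : ℕ) (σ : Vtx → Prop), 1 ≤ R →
    64 * R ≤ n → n ≤ m → ∀ v ∈ core R, ∀ w ∈ core R, ∀ S : Finset Edg, blk (0, 0) n ⊆ S →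
      PQ (1 / 2) S (fun F => Ev m M B k n R σ v ↑F ∧ Ev m M B k n R σ w ↑F) ≤
        C * ((max (sd v w) 1 : ℤ) : ℝ) ^ (-(2 / 3) : ℝ) * (n : ℝ) ^ (-(2 / 3) : ℝ) := by
  obtain ⟨C, hC, hU⟩ := hU
  refine ⟨800 * (1 + C) ^ 3, by positivity, ?_⟩
  intro m M B k n R σ hR hn hm v hv w hw S hS
  rw [mem_core] at hv hw
  obtain ⟨r, hr⟩ : ∃ r : ℕ, (r : ℤ) = sd v w := ⟨(sd v w).toNat, Int.toNat_of_nonneg (sd_nonneg _ _)⟩
  have hrR : r ≤ 2 * R := by
    have h1 := sd_tri v (0, 0) w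
    rw [sd_comm (0, 0) w] at h1
    omega
  obtain ⟨K, hK⟩ : ∃ K : ℕ, K = n / 2 := ⟨_, rfl⟩
  have hK2 : 2 ≤ K := by omega
  have hnK : n ≤ 4 * K := by omega
  have hn0 : (0 : ℝ) < n := by exact_mod_cast (by omega : 0 < n)
  have hK0 : (0 : ℝ) < K := by exact_mod_cast (by omega : 0 < K)
  have hnKR : (n : ℝ) ≤ 4 * K := by exact_mod_cast hnK
  set ρ : ℝ := ((max (sd v w) 1 : ℤ) : ℝ) with hρ
  have hρ1 : (1 : ℝ) ≤ ρ := by
    rw [hρ]
    exact_mod_cast le_max_right _ _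
  have hρ0 : (0 : ℝ) < ρ := by linarith
  have hD : 0 ≤ ρ ^ (-(2 / 3) : ℝ) * (n : ℝ) ^ (-(2 / 3) : ℝ) := by positivity
  have hC1 : C ≤ (1 + C) ^ 3 := by nlinarith [mul_pos hC hC, mul_pos (mul_pos hC hC) hC]
  have hC3 : C ^ 3 ≤ (1 + C) ^ 3 := by
    apply pow_le_pow_left₀ hC.le
    linarith
  rw [mul_assoc]
  have hsub : blk v K ⊆ S := (blk_sub (by omega)).trans hS
  by_cases hr16 : r ≤ 16
  · -- one event
    have h1 := hU v 2 K (by omega) hK2 S hsub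
    have h2 : Pr (fun _ => (1 / 2 : ℝ)) S
        (fun F => Ev m M B k n R σ v ↑F ∧ Ev m M B k n R σ w ↑F) ≤
        PQ (1 / 2) S (fun F => A3v v 2 K (↑F : Set Edg)) := by
      apply Pr_mono okh
      rintro F _ ⟨hF, -⟩
      exact Ev_A3v hF hv (by omega) hm le_rfl hK2 (by omega)
    have hR16 : ρ ≤ 16 := by
      rw [hρ]
      have : max (sd v w) 1 ≤ 16 := by
        rw [← hr]
        omega
      exact_mod_cast this
    have h3 := num (A := 800) (x := ((2 : ℕ) : ℝ) / K) (by norm_num) hρ0 hn0 (by positivity) (by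
      rw [div_le_div_iff₀ hK0 (by positivity)]
      push_cast
      have h5 : ρ * n ≤ 16 * (4 * K) := by gcongr
      nlinarith)
    refine (h2.trans h1).trans ?_
    calc C * (((2 : ℕ) : ℝ) / K) ^ (2 / 3 : ℝ)
        ≤ (1 + C) ^ 3 * (800 * (ρ ^ (-(2 / 3) : ℝ) * (n : ℝ) ^ (-(2 / 3) : ℝ))) := by
          apply mul_le_mul hC1 h3 (by positivity) (by positivity)
      _ = _ := by ring
  · have hRr : ρ = r := by
      rw [hρ, ← hr]
      have : max (r : ℤ) 1 = r := by omega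
      rw [this]
      norm_num
    have hr0 : (0 : ℝ) < r := by exact_mod_cast (by omega : 0 < r)
    obtain ⟨j, hj⟩ : ∃ j : ℕ, j = r / 3 := ⟨_, rfl⟩
    have hj2 : 2 ≤ j := by omega
    have hjn : 2 * j ≤ n := by omega
    have hj0 : (0 : ℝ) < j := by exact_mod_cast (by omega : 0 < j)
    have hs1 : blk v j ⊆ S := (blk_mono (by omega)).trans hsub
    have hs2 : blk w j ⊆ S := (blk_sub (by omega)).trans hS
    have hd12 : Disjoint (blk v j) (blk w j) := disj_blk (by omega)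
    have h1 := hU v 2 j (by omega) hj2 S hs1
    have h1' := hU w 2 j (by omega) hj2 S hs2
    have hA1 : ∀ F, F ⊆ S → (A3v v 2 j (↑F : Set Edg) ↔
        A3v v 2 j (↑(F ∩ blk v j) : Set Edg)) := fun F _ => A3v_local Finset.sdiff_subset F
    have hA2 : ∀ F, F ⊆ S → (A3v w 2 j (↑F : Set Edg) ↔
        A3v w 2 j (↑(F ∩ blk w j) : Set Edg)) := fun F _ => A3v_local Finset.sdiff_subset F
    have hrK : 2 * r ≤ K := by omega
    have h3 := hU v (2 * r) K (by omega) hrK S hsub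
    have hT3 : blk v K \ blk v (2 * r) ⊆ S := Finset.sdiff_subset.trans hsub
    have sub1 : blk v j ⊆ blk v (2 * r) := blk_mono (by omega)
    have sub2 : blk w j ⊆ blk v (2 * r) := blk_sub (by rw [sd_comm]; push_cast; omega)
    have hd13 : Disjoint (blk v j) (blk v K \ blk v (2 * r)) :=
      Finset.disjoint_of_subset_left sub1 Finset.disjoint_sdiff
    have hd23 : Disjoint (blk w j) (blk v K \ blk v (2 * r)) :=
      Finset.disjoint_of_subset_left sub2 Finset.disjoint_sdiff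
    have hA3 : ∀ F, F ⊆ S → (A3v v (2 * r) K (↑F : Set Edg) ↔
        A3v v (2 * r) K (↑(F ∩ (blk v K \ blk v (2 * r))) : Set Edg)) := fun F _ =>
      A3v_local (Finset.Subset.refl _) F
    have i2 := Pr_indep (p := fun _ => (1 / 2 : ℝ)) hs2 hT3 hd23
      (A := fun F => A3v w 2 j (↑F : Set Edg)) (B := fun F => A3v v (2 * r) K (↑F : Set Edg))
      hA2 hA3
    have hA23 : ∀ F, F ⊆ S →
        ((A3v w 2 j (↑F : Set Edg) ∧ A3v v (2 * r) K (↑F : Set Edg)) ↔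
        (A3v w 2 j (↑(F ∩ (blk w j ∪ (blk v K \ blk v (2 * r)))) : Set Edg) ∧
          A3v v (2 * r) K (↑(F ∩ (blk w j ∪ (blk v K \ blk v (2 * r)))) : Set Edg))) := by
      intro F _
      exact and_congr
        (A3v_local (Finset.sdiff_subset.trans Finset.subset_union_left) F)
        (A3v_local Finset.subset_union_right F)
    have i1 := Pr_indep (p := fun _ => (1 / 2 : ℝ)) hs1 (Finset.union_subset hs2 hT3)
      (Finset.disjoint_union_right.2 ⟨hd12, hd13⟩)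
      (A := fun F => A3v v 2 j (↑F : Set Edg))
      (B := fun F => A3v w 2 j (↑F : Set Edg) ∧ A3v v (2 * r) K (↑F : Set Edg))
      hA1 hA23
    have h2 : Pr (fun _ => (1 / 2 : ℝ)) S
        (fun F => Ev m M B k n R σ v ↑F ∧ Ev m M B k n R σ w ↑F) ≤
        Pr (fun _ => (1 / 2 : ℝ)) S (fun F => A3v v 2 j (↑F : Set Edg) ∧
          (A3v w 2 j (↑F : Set Edg) ∧ A3v v (2 * r) K (↑F : Set Edg))) := by
      apply Pr_mono okh
      rintro F _ ⟨hF, hF'⟩
      exact ⟨Ev_A3v hF hv (by omega) hm le_rfl hj2 hjn,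
        Ev_A3v hF' hw (by omega) hm le_rfl hj2 hjn,
        Ev_A3v hF hv (by omega) hm (by omega) hrK (by omega)⟩
    rw [i1, i2] at h2
    have hq0 : 0 ≤ (((2 * r : ℕ) : ℝ) / K) ^ (2 / 3 : ℝ) := by positivity
    have hjr5 : (r : ℝ) ≤ 5 * j := by
      have : r ≤ 5 * j := by omega
      exact_mod_cast this
    have h4 := num (A := 800) (x := (((2 : ℕ) : ℝ) / j) * ((((2 : ℕ) : ℝ) / j) *
      (((2 * r : ℕ) : ℝ) / K))) (by norm_num) hr0 hn0 (by positivity) (by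
        push_cast
        have e1 : (2 : ℝ) / j ≤ 10 / r := by
          rw [div_le_div_iff₀ hj0 hr0]; linarith
        have e2 : (2 * (r : ℝ)) / K ≤ 8 * r / n := by
          rw [div_le_div_iff₀ hK0 hn0]
          nlinarith
        have e3 : (2 : ℝ) / j * (2 / j * (2 * r / K)) ≤ 10 / r * (10 / r * (8 * r / n)) := by
          gcongr
        refine e3.trans (le_of_eq ?_)
        field_simp
        norm_num)
    rw [Real.mul_rpow (by positivity) (by positivity),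
      Real.mul_rpow (by positivity) (by positivity)] at h4
    refine h2.trans ?_
    have h5 : Pr (fun _ => (1 / 2 : ℝ)) S (fun F => A3v v 2 j (↑F : Set Edg)) *
        (Pr (fun _ => (1 / 2 : ℝ)) S (fun F => A3v w 2 j (↑F : Set Edg)) *
        Pr (fun _ => (1 / 2 : ℝ)) S (fun F => A3v v (2 * r) K (↑F : Set Edg))) ≤
        (C * (((2 : ℕ) : ℝ) / j) ^ (2 / 3 : ℝ)) * ((C * (((2 : ℕ) : ℝ) / j) ^ (2 / 3 : ℝ)) *
        (C * (((2 * r : ℕ) : ℝ) / K) ^ (2 / 3 : ℝ))) := by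
      refine mul_le_mul h1 (mul_le_mul h1' h3 (Pr_nonneg okh _ _) (by positivity))
        (mul_nonneg (Pr_nonneg okh _ _) (Pr_nonneg okh _ _)) (by positivity)
    refine h5.trans ?_
    rw [hRr]
    calc (C * (((2 : ℕ) : ℝ) / j) ^ (2 / 3 : ℝ)) * ((C * (((2 : ℕ) : ℝ) / j) ^ (2 / 3 : ℝ)) *
        (C * (((2 * r : ℕ) : ℝ) / K) ^ (2 / 3 : ℝ)))
        = C ^ 3 * ((((2 : ℕ) : ℝ) / j) ^ (2 / 3 : ℝ) * ((((2 : ℕ) : ℝ) / j) ^ (2 / 3 : ℝ) *
          (((2 * r : ℕ) : ℝ) / K) ^ (2 / 3 : ℝ))) := by ring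
      _ ≤ (1 + C) ^ 3 * (800 * ((r : ℝ) ^ (-(2 / 3) : ℝ) * (n : ℝ) ^ (-(2 / 3) : ℝ))) := by
        apply mul_le_mul hC3 h4 (by positivity) (by positivity)
      _ = _ := by ring

end Pool.Agent.V5helper72.OB
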